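import Pool.Agent.Helper24.KK.GoalsB
import Pool.Agent.Helper22.KK.TAI

set_option autoImplicit false
open MeasureTheory Filter Topology Finset Matrix
namespace Pool.Agent.Helper24.KK
open Pool.Agent.Helper49.RS (PredBern)
open scoped ComplexOrder

lemma cm_sum {d : Type} [Fintype d] [DecidableEq d] (s : Finset ℕ) (c : ℕ → ℝ)
    (A : ℕ → d → d → ℝ) : ∑ p ∈ s, c p • cm (A p) = cm (fun i j => ∑ p ∈ s, c p * A p i j) := by
  ext i j
  rw [Matrix.sum_apply]
  simp only [cm, Matrix.of_apply, Matrix.smul_apply]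
  rw [← Finset.sum_add_distrib, Finset.sum_div, Complex.ofReal_sum]
  refine Finset.sum_congr rfl fun p _ => ?_
  rw [Complex.real_smul]
  push_cast
  ring

lemma tr_nonneg {d : Type} [Fintype d] [DecidableEq d] (Z : d → d → ℝ) (θ : ℝ) :
    0 ≤ (trace (NormedSpace.exp (θ • cm Z))).re := by
  rw [Pool.Agent.Helper15.An.trace_exp_smul (Pool.Agent.Helper22.KK.cm_herm Z) θ]
  exact Finset.sum_nonneg fun i _ => (Real.exp_pos _).le

theorem bck' (hMGF : MGF) (hTAI : TAI) : BCK := by
  classical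
  intro Ω _ P _ X q F hPB d _ _ A δ θ t hmeas hev
  obtain ⟨M0, hM0⟩ := hev.exists_forall_of_atTop
  set E : ℕ → Set Ω := fun M => {ω | Real.exp (θ M * t M) ≤
    (trace (NormedSpace.exp (θ M • ∑ p ∈ range M, (X p ω - q p) • cm (A M p ω)))).re} with hE
  set B : ℕ → Set Ω := fun M => if M0 ≤ M then E M else ∅ with hB
  have hb : ∀ M, P (B M) ≤ ENNReal.ofReal (((M : ℝ) ^ 2)⁻¹) := by
    intro M
    by_cases hM : M0 ≤ M
    · simp only [hB, if_pos hM]
      obtain ⟨h1, h2, h3, h4, h5⟩ := hM0 M hM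
      obtain ⟨hi, hle⟩ := hMGF Ω P X q F hPB (d M) (A M) (δ M) (θ M) (hmeas M) h1 h2 h3 h4 M
      have hnn : ∀ ω, 0 ≤ (trace (NormedSpace.exp (θ M • ∑ p ∈ range M,
          (X p ω - q p) • cm (A M p ω)))).re := by
        intro ω
        rw [cm_sum]
        exact tr_nonneg _ _
      have k1 := mul_meas_ge_le_integral_of_nonneg (μ := P) (Eventually.of_forall hnn) hi
        (Real.exp (θ M * t M))
      have k2 : P.real (E M) ≤ ((M : ℝ) ^ 2)⁻¹ := by
        have k3 := k1.trans hle
        have k4 : Real.exp (-(θ M * t M)) * (Real.exp (θ M * t M) * P.real (E M))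
            ≤ Real.exp (-(θ M * t M)) * (Fintype.card (d M) *
              Real.exp ((θ M ^ 2 * δ M ^ 2) * ∑ p ∈ range M, q p)) :=
          mul_le_mul_of_nonneg_left k3 (Real.exp_pos _).le
        rw [← mul_assoc, ← Real.exp_add] at k4
        simp only [neg_add_cancel, Real.exp_zero, one_mul] at k4
        refine k4.trans (le_trans (le_of_eq ?_) h5)
        rw [mul_left_comm, ← Real.exp_add]
      exact (ENNReal.le_ofReal_iff_toReal_le (measure_ne_top P _) (by positivity)).mpr k2
    · simp only [hB, if_neg hM, measure_empty]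
      exact bot_le
  have hK : Summable fun M : ℕ => ((M : ℝ) ^ 2)⁻¹ := Real.summable_nat_pow_inv.mpr (by norm_num)
  have hs : ∑' M, P (B M) ≠ ⊤ := by
    refine ne_top_of_le_ne_top ?_ (ENNReal.tsum_le_tsum hb)
    rw [← ENNReal.ofReal_tsum_of_nonneg (fun M => by positivity) hK]
    exact ENNReal.ofReal_ne_top
  filter_upwards [ae_eventually_notMem hs] with ω hω
  filter_upwards [hω, eventually_ge_atTop M0] with M hM hM' w
  obtain ⟨h1, h2, h3, h4, h5⟩ := hM0 M hM'
  simp only [hB, if_pos hM'] at hM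
  by_contra hcon
  apply hM
  show Real.exp (θ M * t M) ≤
    (trace (NormedSpace.exp (θ M • ∑ p ∈ range M, (X p ω - q p) • cm (A M p ω)))).re
  rw [cm_sum]
  exact hTAI (d M) (fun i j => ∑ p ∈ range M, (X p ω - q p) * A M p ω i j) (θ M) (t M) w h3
    (not_le.mp hcon)

end Pool.Agent.Helper24.KK
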