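import Pool.Agent.Helper24.KK.GoalsC

set_option autoImplicit false
open MeasureTheory Filter Topology Finset
namespace Pool.Agent.Helper24.KK
open Pool.Agent.Helper49.RS

theorem sxb' : SXB := by
  intro a ε pX _ ha0 ha1 hε hg
  have h1a : 0 < 1 - a := by linarith
  filter_upwards [hg, ev_pow (6 / (1 - a)) (1 - a) (1 - a + ε) (by linarith),
    ev_log 8 (1 - a + ε) (by norm_num) (by linarith), eventually_ge_atTop 1] with M hG h1 h2 hM
  have hM1 : (1 : ℝ) ≤ M := by exact_mod_cast hM
  have hs := sum_rpow_le a ha0.le ha1 M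
  have hs' : ∑ n ∈ range M, prb a n ≤ (M : ℝ) ^ (1 - a) / (1 - a) := hs
  have hup := hG.up 0 M (Nat.zero_le _) le_rfl
  rw [← Finset.range_eq_Ico] at hup
  have hp : 0 ≤ (M : ℝ) ^ (1 - a) := by positivity
  have e1 : 6 / (1 - a) * (M : ℝ) ^ (1 - a) = 6 * ((M : ℝ) ^ (1 - a) / (1 - a)) := by ring
  have e2 : 0 ≤ (M : ℝ) ^ (1 - a) / (1 - a) := by positivity
  have hlog : 0 ≤ Real.log M := Real.log_nonneg hM1
  unfold sN
  constructor
  · have h3 : ∑ n ∈ range M, |ind pX n - prb a n| ≤ ∑ n ∈ range M, (ind pX n + prb a n) := by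
      refine Finset.sum_le_sum fun n _ => ?_
      have h4 : 0 ≤ ind pX n := by unfold ind; split_ifs <;> norm_num
      have h5 := prb_nonneg a n
      rw [abs_le]
      constructor <;> linarith
    rw [Finset.sum_add_distrib] at h3
    linarith
  · linarith

end Pool.Agent.Helper24.KK
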