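import Pool.Agent.Helper24.KK.Defs

/-!
# Project KK (MP_9a4587_an), goals A: finite combinatorics of the Kikuchi matrices, transference

Every goal is a `def ... : Prop`; prove it as a theorem in your own file
`Pool/Agent/Helper<you>/KK/<Name>.lean` (import this file). A goal may assume others as hypotheses
only where this is said. All instances of decidability of `filter` are either the default ones or
(where the predicate is not decidable) the classical ones; `classical` plus `convert` or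
`Finset.filter_congr_decidable` help.
-/

set_option autoImplicit false

namespace Pool.Agent.Helper24.KK

open Finset MeasureTheory

/-- EXT. `Qf` is convex in `F` and in `G`, so its maximum over the cube is attained at `±1` valued
functions. PROOF. For fixed `G` the function `F ↦ Qf F G` is convex on `Φ → ℝ` (a sum of squares of
linear functions: `ConvexOn.sum`/`ConvexOn.add`, `Even.convexOn_pow` composed with a linear map).
The cube `{F | ∀ s, |F s| ≤ 1}` is the convex hull of `Set.pi univ fun _ => {-1, 1}`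
(`convexHull_pi` and `convexHull_pair`, `segment_eq_Icc`), so by `ConvexOn.exists_ge_of_mem_convexHull`
there is a `±1` valued `F'` with `Qf F G ≤ Qf F' G`; then the same for `G`. (Alternatively replace
one coordinate after the other: in one coordinate `Qf` is a quadratic polynomial with nonnegative
leading coefficient.) -/
def EXT : Prop := ∀ (Φ Mm : Type) [Fintype Φ] [DecidableEq Φ] [Fintype Mm] [DecidableEq Mm]
  (M : ℕ) (x : ℕ → ℝ) (u v : ℕ → Mm → Φ) (K : ℝ),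
  (∀ F G : Φ → ℝ, (∀ s, F s = 1 ∨ F s = -1) → (∀ s, G s = 1 ∨ G s = -1) →
    Qf M x u v F G ≤ K) →
  ∀ F G : Φ → ℝ, (∀ s, |F s| ≤ 1) → (∀ s, |G s| ≤ 1) → Qf M x u v F G ≤ K

/-- CNE. The number of `l`-sets containing `s` but not `t`. PROOF. `S ↦ S.erase s` is a bijection
onto the `(l-1)`-element subsets of `univ \ {s, t}` (`Finset.powersetCard`, `card_powersetCard`),
a set with `card Φ - 2` elements. -/
def CNE : Prop := ∀ (Φ : Type) [Fintype Φ] [DecidableEq Φ] (l : ℕ) (s t : Φ), s ≠ t → 1 ≤ l →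
  (univ.filter fun S : Sl Φ l => s ∈ S.1 ∧ t ∉ S.1).card = (Fintype.card Φ - 2).choose (l - 1)

/-- CNT. The number of `l`-sets containing `s` and `r` but not `t`. PROOF. Put `R = card Φ`. If
`r = s` this is `C(R-2, l-1)` (bijection as in CNE). If `r = t` it is `0`. Otherwise (`R ≥ 3`) it is
`C(R-3, l-2)` if `l ≥ 2` (bijection `S ↦ (S.erase s).erase r` onto the `(l-2)`-subsets of
`univ \ {s, t, r}`) and `0` if `l = 1`; and `(R-2) C(R-3, l-2) = (l-1) C(R-2, l-1)`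
(`Nat.add_one_mul_choose_eq` or `Nat.succ_mul_choose_eq`), `(l-1)/(R-2) ≤ l/R` because
`2 l ≤ R`. -/
def CNT : Prop := ∀ (Φ : Type) [Fintype Φ] [DecidableEq Φ] (l : ℕ) (s t r : Φ), s ≠ t → 1 ≤ l →
  2 * l ≤ Fintype.card Φ →
  ((univ.filter fun S : Sl Φ l => s ∈ S.1 ∧ t ∉ S.1 ∧ r ∈ S.1).card : ℝ)
    ≤ ((Fintype.card Φ - 2).choose (l - 1) : ℝ) *
      ((if r = s then 1 else 0) + (l : ℝ) / Fintype.card Φ)

open Classical in
/-- ENC. The number of entries of a constraint. You may assume CNE. PROOF. `T` is determined by `S`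
in `Mv s t S T` and has the same number of elements (`card_insert_of_notMem`, `card_erase_of_mem`),
so `(I, J) ↦ I` is a bijection from the set in question onto the set of all `I` with
`s ∈ I.1, t ∉ I.1, s' ∈ I.2, t' ∉ I.2`; this is a product of two sets counted in CNE. -/
def ENC : Prop := ∀ (Φ : Type) [Fintype Φ] [DecidableEq Φ] (l : ℕ) (s t s' t' : Φ), s ≠ t →
  s' ≠ t' → 1 ≤ l →
  (univ.filter fun p : Ix Φ l × Ix Φ l =>
    Mv s t p.1.1.1 p.2.1.1 ∧ Mv s' t' p.1.2.1 p.2.2.1).card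
      = ((Fintype.card Φ - 2).choose (l - 1)) ^ 2

open Classical in
/-- DGR. Average row degree over the entries of one constraint. You may assume CNT. PROOF. Write
`R = card Φ`, `p = l / R`, `c = C(R-2, l-1)`. As `J` is determined by `I` and `Ent` (see ENC; only the
inequality `≤` is needed), the left side is at most the sum of `rdeg x u v n I` over all `I` with
`u n m ∈ I.1, u k m ∉ I.1, v k m ∈ I.2, v n m ∉ I.2`. Insert the definition of `rdeg` and exchange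
the sums: it is at most `∑ j < n, |x j| * ∑ m', N1 (u n m') * N2 (v j m')`, with
`N1 r = #{S | u n m ∈ S, u k m ∉ S, r ∈ S} ≤ c ((if r = u n m then 1 else 0) + p)` and
`N2 r = #{S | v k m ∈ S, v n m ∉ S, r ∈ S} ≤ c ((if r = v k m then 1 else 0) + p)` by CNT
(`u n m ≠ u k m` by `Good.uu`). Multiply out: `∑ m', ([u n m' = u n m] + p) ([v j m' = v k m] + p)
≤ [v j m = v k m] + 2 p + R p ^ 2` because `u n` and `v j` are injective (and
`card Mm ≤ card Φ`). Finally `∑ j < n, |x j| [v j m = v k m] ≤ W` by `Good.gap` and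
`∑ j < n, |x j| ≤ Xb`. -/
def DGR : Prop := ∀ (Φ Mm : Type) [Fintype Φ] [DecidableEq Φ] [Fintype Mm] [DecidableEq Mm]
  (l M : ℕ) (x : ℕ → ℝ) (u v : ℕ → Mm → Φ) (W Xb : ℝ), Good x u v M W Xb → 1 ≤ l →
  2 * l ≤ Fintype.card Φ → ∀ n < M, ∀ k < n, ∀ m, v k m ≠ v n m →
  ∑ p ∈ univ.filter (fun p : Ix Φ l × Ix Φ l => Ent u v n k m p.1 p.2), rdeg x u v n p.1
    ≤ dz (Fintype.card Φ) l * avd (Fintype.card Φ) l W Xb

open Classical in
/-- DGC. Average column degree over the entries of one constraint. You may assume CNT. PROOF. As for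
DGR: `I` is determined by `J` (`Mv s t S T` implies `t ∈ T`, `s ∉ T`, `S = insert s (T.erase t)`), so
the left side is at most the sum of `cdeg x u v n J` over all `J` with
`u k m ∈ J.1, u n m ∉ J.1, v n m ∈ J.2, v k m ∉ J.2`, hence at most
`c ^ 2 * ∑ j < n, |x j| * ∑ m', ([u j m' = u k m] + p) ([v n m' = v n m] + p)`. Since `v n` is
injective the product of the indicators is nonzero only for `m' = m` and `u j m = u k m`, that is
`j = k` (`Good.uu`); so the double sum is at most `|x k| + (2 p + R p ^ 2) Xb`, and `|x k| ≤ 1 ≤ W`. -/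
def DGC : Prop := ∀ (Φ Mm : Type) [Fintype Φ] [DecidableEq Φ] [Fintype Mm] [DecidableEq Mm]
  (l M : ℕ) (x : ℕ → ℝ) (u v : ℕ → Mm → Φ) (W Xb : ℝ), Good x u v M W Xb → 1 ≤ l →
  2 * l ≤ Fintype.card Φ → ∀ n < M, ∀ k < n, ∀ m, v k m ≠ v n m →
  ∑ p ∈ univ.filter (fun p : Ix Φ l × Ix Φ l => Ent u v n k m p.1 p.2), cdeg x u v n p.2
    ≤ dz (Fintype.card Φ) l * avd (Fintype.card Φ) l W Xb

/-- NKG. Half of the entries are kept. You may assume ENC, DGR, DGC. PROOF. By ENC there are exactly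
`dz` entries (`dz` is the square in ENC; `u n m ≠ u k m` by `Good.uu`). Markov: the number of
entries `p` with `Δ < rdeg p.1` times `Δ` is at most `dz * avd ≤ dz * Δ / 4`, so this number is at
most `dz / 4`; the same for `cdeg p.2`. So at least `dz / 2` entries satisfy both. -/
def NKG : Prop := ∀ (Φ Mm : Type) [Fintype Φ] [DecidableEq Φ] [Fintype Mm] [DecidableEq Mm]
  (l M : ℕ) (x : ℕ → ℝ) (u v : ℕ → Mm → Φ) (W Xb Δ : ℝ), Good x u v M W Xb → 1 ≤ l →
  2 * l ≤ Fintype.card Φ → 0 < Δ → 4 * avd (Fintype.card Φ) l W Xb ≤ Δ →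
  ∀ n < M, ∀ k < n, ∀ m, v k m ≠ v n m →
  dz (Fintype.card Φ) l / 2 ≤ (nk l x u v Δ n k m : ℝ)

/-- ROW. Row sums. PROOF. `wt ≤ 2 / dz` and `wt ≥ 0` always (if `dz / 2 ≤ nk` then
`nk⁻¹ ≤ 2 / dz`). For fixed `k, m, I` there is at most one `J` with `Kept ... I J`, and if there is
one then `u n m ∈ I.1`, `v k m ∈ I.2` and `rdeg x u v n I ≤ Δ`. So if `rdeg x u v n I ≤ Δ` then
`∑ J, |kA I J| ≤ ∑ k < n, |x k| * #{m | u n m ∈ I.1 ∧ v k m ∈ I.2} * (2 / dz)
= rdeg x u v n I * (2 / dz) ≤ 2 Δ / dz`; otherwise the row is zero. -/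
def ROW : Prop := ∀ (Φ Mm : Type) [Fintype Φ] [DecidableEq Φ] [Fintype Mm] [DecidableEq Mm]
  (l : ℕ) (x : ℕ → ℝ) (u v : ℕ → Mm → Φ) (Δ : ℝ), 0 ≤ Δ → 0 < dz (Fintype.card Φ) l →
  ∀ (n : ℕ) (I : Ix Φ l), ∑ J : Ix Φ l, |kA x u v Δ n I J| ≤ 2 * Δ / dz (Fintype.card Φ) l

/-- COL. Column sums. PROOF. As for ROW: for fixed `k, m, J` there is at most one `I` with
`Kept ... I J` (`Mv s t S T` implies `t ∈ T` and `S = insert s (T.erase t)`), and then
`u k m ∈ J.1`, `v n m ∈ J.2`, `cdeg x u v n J ≤ Δ`. -/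
def COL : Prop := ∀ (Φ Mm : Type) [Fintype Φ] [DecidableEq Φ] [Fintype Mm] [DecidableEq Mm]
  (l : ℕ) (x : ℕ → ℝ) (u v : ℕ → Mm → Φ) (Δ : ℝ), 0 ≤ Δ → 0 < dz (Fintype.card Φ) l →
  ∀ (n : ℕ) (J : Ix Φ l), ∑ I : Ix Φ l, |kA x u v Δ n I J| ≤ 2 * Δ / dz (Fintype.card Φ) l

/-- FRM. The quadratic form of the matrix at the test vector. PROOF. Exchange the sums: the left side
is `∑ k < n, x k * ∑ m, wt * ∑ (I, J) kept, wv I * wv J`. If `Mv s t S T` and `F = ±1` then
`(∏ S, F) * (∏ T, F) = F s * F t` (both products contain `∏ (S.erase s), F = ±1`); so for a kept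
pair `wv I * wv J = (F (u n m) * F (u k m)) * (G (v k m) * G (v n m))`, and the inner sum is
`nk * (F (u n m) * F (u k m)) * (G (v n m) * G (v k m))`. If `v k m ≠ v n m` then `wt = nk⁻¹` with
`nk ≥ dz / 2 > 0`, so the product is `F F G G`. If `v k m = v n m` no pair is kept (`Ent` contains
`v k m ∈ I.2` and `v n m ∉ I.2`), so the inner sum is empty. -/
def FRM : Prop := ∀ (Φ Mm : Type) [Fintype Φ] [DecidableEq Φ] [Fintype Mm] [DecidableEq Mm]
  (l : ℕ) (x : ℕ → ℝ) (u v : ℕ → Mm → Φ) (Δ : ℝ) (n : ℕ) (F G : Φ → ℝ),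
  0 < dz (Fintype.card Φ) l → (∀ s, F s = 1 ∨ F s = -1) → (∀ s, G s = 1 ∨ G s = -1) →
  (∀ k < n, ∀ m, v k m ≠ v n m → dz (Fintype.card Φ) l / 2 ≤ (nk l x u v Δ n k m : ℝ)) →
  ∑ I : Ix Φ l, ∑ J : Ix Φ l, kA x u v Δ n I J * (wv F G I * wv F G J) = mainS x u v F G n

/-- SPL. Diagonal and off-diagonal part of `Qf`. PROOF. `(∑ n < M, y n) ^ 2 = ∑ n < M, y n ^ 2 +
2 * ∑ n < M, ∑ k < n, y n * y k` (induction on `M`), with `y n = x n * (F (u n m) * G (v n m))`.
`y n ^ 2 = x n ^ 2 ≤ |x n|`. The pairs with `v k m = v n m` contribute in absolute value at most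
`∑ n < M, |x n| * ∑ (k < M with v k m = v n m), |x k| ≤ Xb * W` for each `m` (here
`G (v n m) * G (v k m) = 1`, but this is not needed). Exchange sums for the others. -/
def SPL : Prop := ∀ (Φ Mm : Type) [Fintype Φ] [DecidableEq Φ] [Fintype Mm] [DecidableEq Mm]
  (M : ℕ) (x : ℕ → ℝ) (u v : ℕ → Mm → Φ) (W Xb : ℝ) (F G : Φ → ℝ), Good x u v M W Xb →
  (∀ s, F s = 1 ∨ F s = -1) → (∀ s, G s = 1 ∨ G s = -1) →
  Qf M x u v F G ≤ Fintype.card Mm * (Xb * (1 + 2 * W))
    + 2 * ∑ n ∈ range M, x n * mainS x u v F G n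

/-- RAT. PROOF. `C(R, l) * l * (R - l) = R * (R - 1) * C(R-2, l-1)` and `R - l ≥ R / 2`, so
`C(R, l) * l ≤ 2 R C(R-2, l-1)`; square. Also `C(R-2, l-1) > 0`. -/
def RAT : Prop := ∀ (R l : ℕ), 1 ≤ l → 2 * l ≤ R →
  ((R.choose l : ℕ) : ℝ) ^ 2 ≤ 4 * ((R : ℝ) / l) ^ 2 * dz R l ∧ 0 < dz R l

/-- CRD. Cardinality of the index set. PROOF. `Fintype.card (Sl Φ l) = (card Φ).choose l`
(`Finset.card_powersetCard` or `Fintype.card_finset_len`), and `C(R, l) ≤ R ^ l`
(`Nat.choose_le_pow`), `R ^ (2 l) = exp (2 l log R)`. -/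
def CRD : Prop := ∀ (Φ : Type) [Fintype Φ] [DecidableEq Φ] (l : ℕ), 1 ≤ Fintype.card Φ →
  (Fintype.card (Ix Φ l) : ℝ) = ((Fintype.card Φ).choose l : ℝ) ^ 2 ∧
  (Fintype.card (Ix Φ l) : ℝ) ≤ Real.exp (2 * l * Real.log (Fintype.card Φ))

/-- TRG. Transference. PROOF. Put `Ψ z = (∑ n < M, x n * (f (T^[n] z) * g (S^[β n] z))) ^ 2`: bounded
and measurable. `∫ Ψ = ∫ Ψ ∘ ρ m` for every `m`, so `card Mm * ∫ Ψ = ∫ ∑ m, Ψ (ρ m z)`. For fixed
`z` take `F, G` from the hypothesis: `∑ m, Ψ (ρ m z) = Qf M x u v F G ≤ K`. (See `sys_bound` in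
Pool/Agent/Helper49/RS/Sys.lean for a very similar proof to copy from.) -/
def TRG : Prop := ∀ (Φ Mm : Type) [Fintype Φ] [DecidableEq Φ] [Fintype Mm] [DecidableEq Mm]
  (M : ℕ) (x : ℕ → ℝ) (β : ℕ → ℕ) (u v : ℕ → Mm → Φ) (K : ℝ)
  (α : Type) [MeasurableSpace α] (μ : Measure α) [IsProbabilityMeasure μ] (T S : α → α)
  (ρ : Mm → α → α) (f g : α → ℝ), MeasurePreserving T μ μ → MeasurePreserving S μ μ →
  (∀ m, MeasurePreserving (ρ m) μ μ) → Measurable f → Measurable g →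
  (∀ z, |f z| ≤ 1) → (∀ z, |g z| ≤ 1) →
  (∀ F G : Φ → ℝ, (∀ s, |F s| ≤ 1) → (∀ s, |G s| ≤ 1) → Qf M x u v F G ≤ K) →
  (∀ z, ∃ F G : Φ → ℝ, (∀ s, |F s| ≤ 1) ∧ (∀ s, |G s| ≤ 1) ∧
    ∀ m, ∀ n < M, f (T^[n] (ρ m z)) = F (u n m) ∧ g (S^[β n] (ρ m z)) = G (v n m)) →
  (Fintype.card Mm : ℝ) * ∫ z, (∑ n ∈ range M, x n * (f (T^[n] z) * g (S^[β n] z))) ^ 2 ∂μ ≤ K

/-- PTW. The pointwise identity for dependent maps. PROOF. `F (s, j) = f (T^[s] (S^[j] z))` and the
same for `g`. The remainders modulo `(4 p q + 4) (M + B)` do nothing: for `i < M + B`, `j < q`,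
`n < M`, `b < B` the numbers `i + p (B + q) + n` and `i + p (B + q) ± p ((j + b) / q)` are smaller
(as `(j + b) / q ≤ j + b < B + q`, `M + B ≥ 1`, `p, q ≥ 1`). First identity: commutation. Second one:
`j + b = q s + r` with `s = (j + b) / q`, `r = (j + b) % q`, and `S^[q s] = T^[p s]` if `sg = true`,
`T^[p s] ∘ S^[q s] = id` if `sg = false` (induction on `s`, with commutation: `Function.Commute`,
`Function.Commute.iterate_iterate`); in the second case `i + p (B + q) ≥ p s`. -/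
def PTW : Prop := ∀ (sg : Bool) (p q M B : ℕ), 0 < p → 0 < q → ∀ (α : Type) (T S : α → α),
  (∀ z, T (S z) = S (T z)) → Dep sg p q T S → ∀ (f g : α → ℝ), (∀ z, |f z| ≤ 1) →
  (∀ z, |g z| ≤ 1) → ∀ z : α, ∃ F G : Fin ((4 * p * q + 4) * (M + B)) × Fin q → ℝ,
    (∀ s, |F s| ≤ 1) ∧ (∀ s, |G s| ≤ 1) ∧
    ∀ (m : Fin (M + B) × Fin q),
      (∀ n < M, f (T^[n] (T^[m.1.1 + p * (B + q)] (S^[m.2.1] z))) = F (upos p q M B n m)) ∧
      (∀ b < B, g (S^[b] (T^[m.1.1 + p * (B + q)] (S^[m.2.1] z))) = G (vpos sg p q M B b m))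

/-- POS. Injectivity of the positions. PROOF. The remainders modulo `(4 p q + 4) (M + B)` do nothing,
see PTW. For `vpos`: `(j + b) % q = (j' + b) % q` and `j, j' < q` imply `j = j'`
(`Nat.ModEq.add_right_cancel'`, `Nat.ModEq` and `Nat.mod_eq_of_lt`); then the first coordinates
give `i = i'` (in the case `sg = false` use `p ((j + b) / q) ≤ p (B + q)`). For the last statement:
the same point `m`, so `p ((j + b) / q) = p ((j + b') / q)` and `(j + b) % q = (j + b') % q`, whence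
`b = b'` (`Nat.div_add_mod`). -/
def POS : Prop := ∀ (sg : Bool) (p q M B : ℕ), 0 < p → 0 < q →
  (∀ n < M, Function.Injective (upos p q M B n)) ∧
  (∀ n < M, ∀ k < M, ∀ m, upos p q M B n m = upos p q M B k m → n = k) ∧
  (∀ b < B, Function.Injective (vpos sg p q M B b)) ∧
  (∀ b < B, ∀ b' < B, ∀ m, vpos sg p q M B b m = vpos sg p q M B b' m → b = b')

end Pool.Agent.Helper24.KK
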