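import Pool.Agent.Helper24.KK.Main
import Pool.Agent.Helper94.KK.EXT
import Pool.Agent.Helper12.KK.CNE
import Pool.Agent.Helper83.KK.CNT
import Pool.Agent.Helper77.KK.ENC
import Pool.Agent.Helper8.KK.DGR
import Pool.Agent.Helper56.KK.DGC
import Pool.Agent.Helper86.KK.NKG
import Pool.Agent.Helper93.KK.ROW
import Pool.Agent.Helper89.KK.COL
import Pool.Agent.Helper79.KK.FRM
import Pool.Agent.Helper39.KK.SPL
import Pool.Agent.Helper9.KK.RAT
import Pool.Agent.Helper73.KK.CRD
import Pool.Agent.Helper60.KK.TRG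
import Pool.Agent.Helper69.KK.PTW
import Pool.Agent.Helper42.KK.POS
import Pool.Agent.Helper17.KK.EIG
import Pool.Agent.Helper61.KK.OPI
import Pool.Agent.Helper61.KK.STP
import Pool.Agent.Helper75.KK.MGF
import Pool.Agent.Helper22.KK.TAI
import Pool.Agent.Helper24.KK.BCK
import Pool.Agent.Helper51.KK.EXN
import Pool.Agent.Helper40.KK.GAP
import Pool.Agent.Helper24.KK.SXB
import Pool.Agent.Helper11.KK.CLO
import Pool.Agent.Helper58.KK.BBD
import Pool.Agent.Helper62.KK.LEN
import Pool.Agent.Helper24.KK.SMN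
import Pool.Agent.Helper32.KK.FIN
import Pool.Agent.Helper32.KK.MEA

/-!
# Project KK: all goals are proved
-/

set_option autoImplicit false

namespace Pool.Agent.Helper24.KK

theorem goals : Goals where
  ext := Pool.Agent.Helper94.KK.ext
  nkg := Pool.Agent.Helper86.KK.nkg (Pool.Agent.Helper77.KK.enc Pool.Agent.Helper12.KK.cne)
    (Pool.Agent.Helper8.KK.dgr Pool.Agent.Helper83.KK.cnt)
    (Pool.Agent.Helper56.KK.dgc Pool.Agent.Helper83.KK.cnt)
  row := Pool.Agent.Helper93.KK.row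
  col := Pool.Agent.Helper89.KK.col
  frm := Pool.Agent.Helper79.KK.frm
  spl := Pool.Agent.Helper39.KK.spl
  rat := Pool.Agent.Helper9.KK.rat
  crd := Pool.Agent.Helper73.KK.crd
  trg := Pool.Agent.Helper60.KK.trg
  ptw := Pool.Agent.Helper69.KK.ptw
  pos := Pool.Agent.Helper42.KK.pos
  bck := bck' (Pool.Agent.Helper75.KK.mgf Pool.Agent.Helper17.KK.eig
    (Pool.Agent.Helper61.KK.stp Pool.Agent.Helper61.KK.opi)) Pool.Agent.Helper22.KK.tai
  exn := Pool.Agent.Helper51.KK.exn
  gap := Pool.Agent.Helper40.KK.gap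
  sxb := sxb'
  clo := Pool.Agent.Helper11.KK.clo
  bbd := Pool.Agent.Helper58.KK.bbd
  len := Pool.Agent.Helper62.KK.len
  smn := smn' Pool.Agent.Helper62.KK.len Pool.Agent.Helper9.KK.rat
  fin := Pool.Agent.Helper32.KK.fin
  mea := Pool.Agent.Helper32.KK.mea

end Pool.Agent.Helper24.KK
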