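import Pool.Agent.Helper24.KK.Defs
import Pool.Agent.Helper49.RS.Main

/-!
# Project KK: from the error estimates to the ergodic theorem, for one fixed pair of maps

The proofs are those of helper49 (files Erg.lean and Main.lean of his project RS) with the
uniform error estimate replaced by the one for the given maps.
-/

set_option autoImplicit false
open MeasureTheory ProbabilityTheory Filter Topology

namespace Pool.Agent.Helper24.KK

open Pool.Agent.Helper49.RS hiding err_ae lln_sub single_ae prod_zero prod_main main_one main_top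

set_option linter.unusedSectionVars false

/-- The error estimate for given maps. -/
def ErrLoc {α : Type} [MeasurableSpace α] (μ : Measure α) (T S : α → α) (pX pY : ℕ → Prop)
    [DecidablePred pX] (π : ℕ → ℝ) (c : ℝ) : Prop :=
  ∀ᶠ M : ℕ in atTop, ∀ f g : α → ℝ, Measurable f → Measurable g →
    (∀ z, |f z| ≤ 1) → (∀ z, |g z| ≤ 1) →
    ∫ z, (∑ n ∈ Finset.range M, (ind pX n - π n) * (f (T^[n] z) * g (S^[bt pX pY n] z))) ^ 2 ∂μ
      ≤ (Nat.count pX M : ℝ) ^ 2 * (M : ℝ) ^ (-c)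

/-- The information about the pair of sequences which is used for the maps `T`, `S`. -/
structure GoodL {α : Type} [MeasurableSpace α] (μ : Measure α) (T S : α → α) (a b : ℝ)
    (pX pY : ℕ → Prop) [DecidablePred pX] [DecidablePred pY] : Prop where
  iX : (Set.ofPred pX).Infinite
  iY : (Set.ofPred pY).Infinite
  eX : ∃ c, 0 < c ∧ ErrLoc μ T S pX pY (prb a) c
  eY : ∃ c, 0 < c ∧ ErrLoc μ S T pY pX (prb b) c

variable {pX pY : ℕ → Prop} [DecidablePred pX] [DecidablePred pY]

variable {α : Type} [MeasurableSpace α] {μ : Measure α} [IsProbabilityMeasure μ] {T S : α → α}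

lemma err_aeL (hT : MeasurePreserving T μ μ) (hS : MeasurePreserving S μ μ)
    (hTS : ∀ z, T (S z) = S (T z)) (hX : (Set.ofPred pX).Infinite) {π : ℕ → ℝ} {c : ℝ} (hc : 0 < c)
    (hE : ErrLoc μ T S pX pY π c) (f g : α → ℝ) (hf : Measurable f) (hg : Measurable g)
    (hf1 : ∀ z, |f z| ≤ 1) (hg1 : ∀ z, |g z| ≤ 1) (p : ℕ) (hp : 1 < p * c) :
    ∀ᵐ z ∂μ, Tendsto (fun j : ℕ => ((j ^ p : ℕ) : ℝ)⁻¹ *
      ∑ n ∈ Finset.range (Nat.nth pX (j ^ p)), (ind pX n - π n) *
        (f (T^[n] z) * g (S^[bt pX pY n] z))) atTop (𝓝 0) := by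
  have hp1 : 1 ≤ p := by
    rcases Nat.eq_zero_or_pos p with h | h
    · subst h; simp at hp; linarith
    · exact h
  set E : ℕ → α → ℝ := fun M z => ∑ n ∈ Finset.range M, (ind pX n - π n) *
        (f (T^[n] z) * g (S^[bt pX pY n] z)) with hEdef
  have hEm : ∀ M, Measurable (E M) := by
    intro M
    refine Finset.measurable_sum _ fun n _ => ?_
    exact measurable_const.mul ((hf.comp (hT.iterate n).measurable).mul
      (hg.comp (hS.iterate _).measurable))
  have hEb : ∀ M z, |E M z| ≤ ∑ n ∈ Finset.range M, |ind pX n - π n| := by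
    intro M z
    refine (Finset.abs_sum_le_sum_abs _ _).trans (Finset.sum_le_sum fun n _ => ?_)
    rw [abs_mul, abs_mul]
    have a1 := hf1 (T^[n] z)
    have a2 := hg1 (S^[bt pX pY n] z)
    calc _ ≤ |ind pX n - π n| * (1 * 1) := by gcongr
      _ = _ := by ring
  set M : ℕ → ℕ := fun j => Nat.nth pX (j ^ p) with hM
  have hMge : ∀ j, j ^ p ≤ M j := fun j => nth_ge hX _
  have hMt : Tendsto M atTop atTop := by
    refine tendsto_atTop_mono (fun j => ?_) tendsto_id
    exact (Nat.le_self_pow (by omega) j).trans (hMge j)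
  have hsq : ∀ᵐ z ∂μ, Tendsto (fun j : ℕ => (((j ^ p : ℕ) : ℝ)⁻¹ * E (M j) z) ^ 2) atTop (𝓝 0) := by
    refine ae_zero_of_summable (fun j z => (((j ^ p : ℕ) : ℝ)⁻¹ * E (M j) z) ^ 2)
      (fun j => (measurable_const.mul (hEm _)).pow_const 2) (fun j z => sq_nonneg _) (fun j => ?_) ?_
    · refine int_of_bdd _ ((measurable_const.mul (hEm _)).pow_const 2)
        ((((j ^ p : ℕ) : ℝ)⁻¹ * ∑ n ∈ Finset.range (M j), |ind pX n - π n|) ^ 2) fun z => ?_
      rw [abs_pow, abs_mul, abs_of_nonneg (by positivity : (0:ℝ) ≤ ((j ^ p : ℕ) : ℝ)⁻¹)]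
      have := hEb (M j) z
      gcongr
    · have hsum : Summable fun j : ℕ => (j : ℝ) ^ (-(p * c)) :=
        Real.summable_nat_rpow.mpr (by linarith)
      refine Summable.of_norm_bounded_eventually_nat hsum ?_
      filter_upwards [hMt.eventually hE, eventually_ge_atTop 1] with j hj hj1
      have hNpos : (0:ℝ) < ((j ^ p : ℕ) : ℝ) := by
        have : 0 < j ^ p := Nat.pow_pos (by omega)
        exact_mod_cast this
      rw [Real.norm_of_nonneg (integral_nonneg fun z => sq_nonneg _)]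
      have h1 := hj f g hf hg hf1 hg1
      have h2 : Nat.count pX (M j) = j ^ p := Nat.count_nth_of_infinite hX _
      rw [h2] at h1
      have e1 : ∫ z, (((j ^ p : ℕ) : ℝ)⁻¹ * E (M j) z) ^ 2 ∂μ
          = (((j ^ p : ℕ) : ℝ) ^ 2)⁻¹ * ∫ z, (E (M j) z) ^ 2 ∂μ := by
        rw [← integral_const_mul]
        refine integral_congr_ae (Eventually.of_forall fun z => ?_)
        show (((j ^ p : ℕ) : ℝ)⁻¹ * E (M j) z) ^ 2 = (((j ^ p : ℕ) : ℝ) ^ 2)⁻¹ * (E (M j) z) ^ 2
        rw [mul_pow, inv_pow]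
      rw [e1]
      calc _ ≤ (((j ^ p : ℕ) : ℝ) ^ 2)⁻¹ * (((j ^ p : ℕ) : ℝ) ^ 2 * (M j : ℝ) ^ (-c)) := by
            gcongr
        _ = (M j : ℝ) ^ (-c) := by field_simp
        _ ≤ (((j ^ p : ℕ) : ℝ)) ^ (-c) := by
            apply Real.rpow_le_rpow_of_nonpos hNpos _ (by linarith)
            exact_mod_cast hMge j
        _ = (j : ℝ) ^ (-(p * c)) := by
            push_cast
            rw [← Real.rpow_natCast, ← Real.rpow_mul (Nat.cast_nonneg j)]
            congr 1; ring
  filter_upwards [hsq] with z hz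
  have h1 := (Real.continuous_sqrt.tendsto 0).comp hz
  rw [Real.sqrt_zero] at h1
  refine (tendsto_zero_iff_abs_tendsto_zero _).mpr ?_
  refine h1.congr fun j => ?_
  simp only [Function.comp_apply, Real.sqrt_sq_eq_abs, hEdef, hM]

/-- Law of large numbers along the subsequence. -/
lemma lln_subL (hT : MeasurePreserving T μ μ) (hS : MeasurePreserving S μ μ)
    (hTS : ∀ z, T (S z) = S (T z)) (hX : (Set.ofPred pX).Infinite) {π : ℕ → ℝ} {c : ℝ} (hc : 0 < c)
    (hE : ErrLoc μ T S pX pY π c) (p : ℕ) (hp : 1 < p * c) :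
    Tendsto (fun j : ℕ => ((j ^ p : ℕ) : ℝ)⁻¹ *
      ∑ n ∈ Finset.range (Nat.nth pX (j ^ p)), π n) atTop (𝓝 1) := by
  have hp1 : 1 ≤ p := by
    rcases Nat.eq_zero_or_pos p with h | h
    · subst h; simp at hp; linarith
    · exact h
  have h1 := err_aeL hT hS hTS hX hc hE (fun _ => (1:ℝ)) (fun _ => (1:ℝ)) measurable_const
    measurable_const (fun _ => by simp) (fun _ => by simp) p hp
  obtain ⟨z, hz⟩ := h1.exists
  have h2 := (tendsto_const_nhds (x := (1:ℝ))).sub hz
  rw [sub_zero] at h2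
  refine h2.congr' ?_
  filter_upwards [eventually_ge_atTop 1] with j hj
  have hNpos : (0:ℝ) < ((j ^ p : ℕ) : ℝ) := by
    have : 0 < j ^ p := Nat.pow_pos (by omega)
    exact_mod_cast this
  have e1 : ∑ n ∈ Finset.range (Nat.nth pX (j ^ p)), (ind pX n - π n) * ((1:ℝ) * 1)
      = ((j ^ p : ℕ) : ℝ) - ∑ n ∈ Finset.range (Nat.nth pX (j ^ p)), π n := by
    simp only [mul_one]
    rw [Finset.sum_sub_distrib, sum_ind_range, Nat.count_nth_of_infinite hX]
  rw [e1]
  field_simp
  ring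

theorem single_aeL (hT : MeasurePreserving T μ μ) (hS : MeasurePreserving S μ μ)
    (hTS : ∀ z, T (S z) = S (T z)) (hX : (Set.ofPred pX).Infinite) {π : ℕ → ℝ} {c : ℝ} (hc : 0 < c)
    (hπ : Antitone π) (h0 : ∀ n, 0 ≤ π n)
    (hPt : Tendsto (fun M => ∑ n ∈ Finset.range M, π n) atTop atTop)
    (hE : ErrLoc μ T S pX pY π c) (f : α → ℝ) (hf : Measurable f)
    (hf1 : ∀ z, |f z| ≤ 1) (F : α → ℝ)
    (hF : ∀ᵐ z ∂μ, Tendsto (fun n => avg T f n z) atTop (𝓝 (F z))) :
    ∀ᵐ z ∂μ, Tendsto (fun N : ℕ => (N : ℝ)⁻¹ * ∑ k ∈ Finset.range N, f (T^[Nat.nth pX k] z))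
      atTop (𝓝 (F z)) := by
  obtain ⟨p, hp⟩ := exists_nat_gt (1 / c)
  have hp' : 1 < p * c := by rwa [div_lt_iff₀ hc] at hp
  have hp1 : 1 ≤ p := by
    rcases Nat.eq_zero_or_pos p with h | h
    · subst h; simp at hp'; linarith
    · exact h
  have hl := lln_subL hT hS hTS hX hc hE p hp'
  filter_upwards [hF, err_aeL hT hS hTS hX hc hE f (fun _ => (1:ℝ)) hf measurable_const hf1
    (fun _ => by simp) p hp'] with z h1 h2
  refine avg_of_subseq (fun k => f (T^[Nat.nth pX k] z)) 1 (fun k => hf1 _) p hp1 (F z) ?_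
  have h3 := wavg_sub hπ h0 hPt hX p hp1 hl (fun n => f (T^[n] z)) (F z) h1
  have h4 := h2.add h3
  rw [zero_add] at h4
  refine h4.congr fun j => ?_
  have e1 := pair_sum (pX := pX) (pY := pY) (fun n _ => f (T^[n] z)) (Nat.nth pX (j ^ p))
  rw [Nat.count_nth_of_infinite hX] at e1
  rw [← e1, ← mul_add, ← Finset.sum_add_distrib]
  congr 1
  exact Finset.sum_congr rfl fun n _ => by ring

theorem prod_zeroL (hT : MeasurePreserving T μ μ) (hS : MeasurePreserving S μ μ)
    (hTS : ∀ z, T (S z) = S (T z)) (hX : (Set.ofPred pX).Infinite)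
    {π : ℕ → ℝ} {c : ℝ} (hc : 0 < c)
    (hπ : Antitone π) (h0 : ∀ n, 0 ≤ π n) (hπ0 : Tendsto π atTop (𝓝 0))
    (hPt : Tendsto (fun M => ∑ n ∈ Finset.range M, π n) atTop atTop)
    (hE : ErrLoc μ T S pX pY π c) (f g : α → ℝ) (hf : Measurable f) (hg : Measurable g)
    (hf1 : ∀ z, |f z| ≤ 1) (hg1 : ∀ z, |g z| ≤ 1)
    (hF : ∀ᵐ z ∂μ, Tendsto (fun n => avg T f n z) atTop (𝓝 0)) :
    ∀ᵐ z ∂μ, Tendsto (fun N : ℕ => (N : ℝ)⁻¹ * ∑ k ∈ Finset.range N,
      f (T^[Nat.nth pX k] z) * g (S^[Nat.nth pY k] z)) atTop (𝓝 0) := by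
  obtain ⟨p, hp⟩ := exists_nat_gt (1 / c)
  have hp' : 1 < p * c := by rwa [div_lt_iff₀ hc] at hp
  have hp1 : 1 ≤ p := by
    rcases Nat.eq_zero_or_pos p with h | h
    · subst h; simp at hp'; linarith
    · exact h
  have hl := lln_subL hT hS hTS hX hc hE p hp'
  -- the error functions
  set φ : ℕ → α → ℝ := fun m z => |avg T f m z| with hφ
  have hφm : ∀ m, Measurable (φ m) := fun m =>
    continuous_abs.measurable.comp (avg_meas hT.measurable f hf m)
  have hφ1 : ∀ m z, |φ m z| ≤ 1 := fun m z => by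
    simp only [hφ, abs_abs]; exact avg_bdd (T := T) f 1 zero_le_one hf1 m z
  choose Lm hL1 hL2 hL3 hL4 using fun m => exists_lim (μ := μ) T (φ m) (hφm m) 1 zero_le_one (hφ1 m)
  have hB : ∀ᵐ z ∂μ, ∀ m, Tendsto (fun n => avg T (φ m) n z) atTop (𝓝 (Lm m z)) := by
    rw [ae_all_iff]
    intro m
    exact birkhoff hT (φ m) (hφm m) 1 (hφ1 m) (Lm m) (hL1 m) (hL2 m) (hL3 m)
  have hLn : ∀ m, ∀ᵐ z ∂μ, 0 ≤ Lm m z := by
    intro m
    filter_upwards [hB] with z hz
    refine ge_of_tendsto (hz m) (Eventually.of_forall fun n => ?_)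
    unfold avg
    exact mul_nonneg (by positivity) (Finset.sum_nonneg fun k _ => abs_nonneg _)
  have hLmm : ∀ m, Measurable (Lm m) := fun m =>
    (hL1 m).mono (MeasurableSpace.invariants_le T) le_rfl
  have hint : Tendsto (fun m => ∫ z, Lm m z ∂μ) atTop (𝓝 0) := by
    have h1 : ∀ m, ∫ z, Lm m z ∂μ = ∫ z, φ m z ∂μ := by
      intro m
      have := hL3 m Set.univ (@MeasurableSet.univ _ (MeasurableSpace.invariants T))
      rw [setIntegral_univ, setIntegral_univ] at this
      exact this.symm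
    simp_rw [h1]
    have h2 := tendsto_integral_of_dominated_convergence (μ := μ) (F := φ) (f := fun _ => (0:ℝ))
      (fun _ => (1:ℝ)) (fun m => (hφm m).aestronglyMeasurable) (integrable_const 1)
      (fun m => Eventually.of_forall fun z => by rw [Real.norm_eq_abs]; exact hφ1 m z)
      (by
        filter_upwards [hF] with z hz
        have := hz.abs
        rw [abs_zero] at this
        exact this)
    simpa using h2
  have hC : ∀ᵐ z ∂μ, ∀ k : ℕ, ∃ m, 1 ≤ m ∧ Lm m z < 1 / ((k : ℝ) + 1) := by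
    rw [ae_all_iff]
    intro k
    rw [ae_iff]
    set Bk := {z | ¬ ∃ m, 1 ≤ m ∧ Lm m z < 1 / ((k : ℝ) + 1)} with hBk
    have hkpos : (0:ℝ) < 1 / ((k : ℝ) + 1) := by positivity
    have h1 : ∀ m, 1 ≤ m → (1 / ((k : ℝ) + 1)) * μ.real Bk ≤ ∫ z, Lm m z ∂μ := by
      intro m hm
      have h2 := mul_meas_ge_le_integral_of_nonneg (hLn m)
        (int_of_bdd (Lm m) (hLmm m) 1 (hL2 m)) (1 / ((k : ℝ) + 1))
      refine le_trans ?_ h2
      refine mul_le_mul_of_nonneg_left ?_ hkpos.le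
      refine measureReal_mono ?_
      intro z hz
      have hz' : ¬ ∃ m, 1 ≤ m ∧ Lm m z < 1 / ((k : ℝ) + 1) := hz
      show 1 / ((k : ℝ) + 1) ≤ Lm m z
      by_contra hcon
      exact hz' ⟨m, hm, not_le.mp hcon⟩
    have h3 : (1 / ((k : ℝ) + 1)) * μ.real Bk ≤ 0 := by
      refine ge_of_tendsto hint ?_
      filter_upwards [eventually_ge_atTop 1] with m hm
      exact h1 m hm
    have h4 : μ.real Bk = 0 := by
      have : 0 ≤ μ.real Bk := measureReal_nonneg
      nlinarith
    rw [Measure.real, ENNReal.toReal_eq_zero_iff] at h4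
    rcases h4 with h | h
    · exact h
    · exact absurd h (measure_ne_top _ _)
  have hN : Tendsto (fun j : ℕ => ((j ^ p : ℕ) : ℝ)⁻¹) atTop (𝓝 0) := by
    have h1 : Tendsto (fun j : ℕ => j ^ p) atTop atTop := tendsto_pow_atTop (by omega)
    exact tendsto_inv_atTop_nhds_zero_nat.comp h1
  have hces : Tendsto (fun j : ℕ => ((j ^ p : ℕ) : ℝ)⁻¹ *
      ∑ n ∈ Finset.range (Nat.nth pX (j ^ p)), ind pX n * π n) atTop (𝓝 0) := by
    have h1 : Tendsto (fun k => π (Nat.nth pX k)) atTop (𝓝 0) :=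
      hπ0.comp (tendsto_atTop_mono (nth_ge hX) tendsto_id)
    have h2 := h1.cesaro
    have h3 : Tendsto (fun j : ℕ => j ^ p) atTop atTop := tendsto_pow_atTop (by omega)
    have h4 := h2.comp h3
    refine h4.congr fun j => ?_
    have e1 := pair_sum (pX := pX) (pY := pY) (fun n _ => π n) (Nat.nth pX (j ^ p))
    rw [Nat.count_nth_of_infinite hX] at e1
    simp only [Function.comp_apply]
    rw [← e1]
  filter_upwards [hB, hC, err_aeL hT hS hTS hX hc hE f g hf hg hf1 hg1 p hp'] with z hBz hCz hEz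
  refine avg_of_subseq (fun k => f (T^[Nat.nth pX k] z) * g (S^[Nat.nth pY k] z)) 1 (fun k => ?_)
    p hp1 0 ?_
  · rw [abs_mul]
    have := hf1 (T^[Nat.nth pX k] z)
    have := hg1 (S^[Nat.nth pY k] z)
    calc _ ≤ (1:ℝ) * 1 := by gcongr
      _ = 1 := one_mul 1
  have hsec : Tendsto (fun j : ℕ => ((j ^ p : ℕ) : ℝ)⁻¹ *
      ∑ n ∈ Finset.range (Nat.nth pX (j ^ p)), π n * (f (T^[n] z) * g (S^[bt pX pY n] z)))
      atTop (𝓝 0) := by
    rw [Metric.tendsto_atTop]
    intro δ hδ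
    obtain ⟨k, hk⟩ := exists_nat_one_div_lt hδ
    obtain ⟨m, hm, hLm⟩ := hCz k
    have hwa := wavg_sub hπ h0 hPt hX p hp1 hl (fun n => φ m (T^[n] z)) (Lm m z) (hBz m)
    have hr : Tendsto (fun j : ℕ => (((j ^ p : ℕ) : ℝ)⁻¹ * (2 * m * π 0)
        + (2 * m) * (((j ^ p : ℕ) : ℝ)⁻¹ * ∑ n ∈ Finset.range (Nat.nth pX (j ^ p)), ind pX n * π n))
        + ((j ^ p : ℕ) : ℝ)⁻¹ * ∑ n ∈ Finset.range (Nat.nth pX (j ^ p)), π n * φ m (T^[n] z))
        atTop (𝓝 ((0 * (2 * m * π 0) + (2 * m) * 0) + Lm m z)) :=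
      ((hN.mul_const _).add (hces.const_mul _)).add hwa
    have hlim : (0 * (2 * (m:ℝ) * π 0) + (2 * (m:ℝ)) * 0) + Lm m z < δ := by
      have : (0 * (2 * (m:ℝ) * π 0) + (2 * (m:ℝ)) * 0) + Lm m z = Lm m z := by ring
      rw [this]; exact hLm.trans hk
    obtain ⟨j0, hj0⟩ := (hr.eventually_lt_const hlim).exists_forall_of_atTop
    refine ⟨j0, fun j hj => ?_⟩
    have h5 := hj0 j hj
    refine lt_of_le_of_lt ?_ h5
    rw [Real.dist_eq, sub_zero, abs_mul, abs_of_nonneg (by positivity : (0:ℝ) ≤ ((j ^ p : ℕ) : ℝ)⁻¹)]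
    set M := Nat.nth pX (j ^ p) with hM
    have hcob := cobdry (pX := pX) π hπ h0 (fun n => trf T f m (T^[n] z))
      (fun n => g (S^[bt pX pY n] z)) m (fun n => trf_bdd (T := T) f hf1 m _) (fun n => hg1 _)
      (fun n hn => by
        show g (S^[bt pX pY (n + 1)] z) = g (S^[bt pX pY n] z)
        have : bt pX pY (n + 1) = bt pX pY n := by
          unfold bt; rw [Nat.count_succ, if_neg hn, add_zero]
        rw [this]) M
    have hsplit : ∑ n ∈ Finset.range M, π n * (f (T^[n] z) * g (S^[bt pX pY n] z))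
        = ∑ n ∈ Finset.range M, π n * ((trf T f m (T^[n] z) - trf T f m (T^[n + 1] z)) *
            g (S^[bt pX pY n] z))
          + ∑ n ∈ Finset.range M, π n * (avg T f m (T^[n] z) * g (S^[bt pX pY n] z)) := by
      rw [← Finset.sum_add_distrib]
      refine Finset.sum_congr rfl fun n _ => ?_
      have := trf_eq (T := T) f m hm (T^[n] z)
      rw [Function.iterate_succ_apply']
      conv_lhs => rw [this]
      ring
    have hsecond : |∑ n ∈ Finset.range M, π n * (avg T f m (T^[n] z) * g (S^[bt pX pY n] z))|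
        ≤ ∑ n ∈ Finset.range M, π n * φ m (T^[n] z) := by
      refine (Finset.abs_sum_le_sum_abs _ _).trans (Finset.sum_le_sum fun n _ => ?_)
      rw [abs_mul, abs_mul, abs_of_nonneg (h0 n)]
      have a1 := hg1 (S^[bt pX pY n] z)
      have a2 := h0 n
      simp only [hφ]
      calc _ ≤ π n * (|avg T f m (T^[n] z)| * 1) := by gcongr
        _ = _ := by ring
    rw [hsplit]
    calc _ ≤ ((j ^ p : ℕ) : ℝ)⁻¹ * (m * (2 * π 0 + 2 * ∑ n ∈ Finset.range M, ind pX n * π n)
          + ∑ n ∈ Finset.range M, π n * φ m (T^[n] z)) := by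
          refine mul_le_mul_of_nonneg_left ?_ (by positivity)
          exact (abs_add_le _ _).trans (add_le_add hcob hsecond)
      _ = _ := by ring
  have h6 := hEz.add hsec
  rw [zero_add] at h6
  refine h6.congr fun j => ?_
  have e1 := pair_sum (pX := pX) (pY := pY) (fun n b => f (T^[n] z) * g (S^[b] z))
    (Nat.nth pX (j ^ p))
  rw [Nat.count_nth_of_infinite hX] at e1
  rw [← e1, ← mul_add, ← Finset.sum_add_distrib]
  congr 1
  exact Finset.sum_congr rfl fun n _ => by ring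

/-- The pointwise theorem for functions bounded by one. -/
theorem prod_mainL (hT : MeasurePreserving T μ μ) (hS : MeasurePreserving S μ μ)
    (hTS : ∀ z, T (S z) = S (T z)) (hX : (Set.ofPred pX).Infinite) (hY : (Set.ofPred pY).Infinite)
    {π q : ℕ → ℝ} {c c' : ℝ} (hc : 0 < c) (hc' : 0 < c')
    (hπ : Antitone π) (h0 : ∀ n, 0 ≤ π n) (hπ0 : Tendsto π atTop (𝓝 0))
    (hPt : Tendsto (fun M => ∑ n ∈ Finset.range M, π n) atTop atTop)
    (hq : Antitone q) (hq0 : ∀ n, 0 ≤ q n)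
    (hQt : Tendsto (fun M => ∑ n ∈ Finset.range M, q n) atTop atTop)
    (hE : ErrLoc μ T S pX pY π c) (hE' : ErrLoc μ S T pY pX q c')
    (f g : α → ℝ) (hf : Measurable f) (hg : Measurable g)
    (hf1 : ∀ z, |f z| ≤ 1) (hg1 : ∀ z, |g z| ≤ 1) (F G : α → ℝ) (hFm : Measurable F)
    (hF1 : ∀ z, |F z| ≤ 1) (hFT : ∀ z, F (T z) = F z)
    (hF : ∀ᵐ z ∂μ, Tendsto (fun n => avg T f n z) atTop (𝓝 (F z)))
    (hG : ∀ᵐ z ∂μ, Tendsto (fun n => avg S g n z) atTop (𝓝 (G z))) :
    ∀ᵐ z ∂μ, Tendsto (fun N : ℕ => (N : ℝ)⁻¹ * ∑ k ∈ Finset.range N,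
      f (T^[Nat.nth pX k] z) * g (S^[Nat.nth pY k] z)) atTop (𝓝 (F z * G z)) := by
  have hFit : ∀ k z, F (T^[k] z) = F z := by
    intro k
    induction k with
    | zero => intro z; rfl
    | succ k ih => intro z; rw [Function.iterate_succ_apply, ih, hFT]
  have h1 := prod_zeroL hT hS hTS hX hc hπ h0 hπ0 hPt hE (fun z => (f z - F z) / 2) g
    ((hf.sub hFm).div_const 2) hg (fun z => by
      rw [abs_div, abs_of_pos (by norm_num : (0:ℝ) < 2), div_le_one (by norm_num)]
      calc _ ≤ |f z| + |F z| := abs_sub _ _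
        _ ≤ 2 := by have := hf1 z; have := hF1 z; linarith) hg1
    (by
      filter_upwards [hF] with z hz
      have h2 := (hz.sub_const (F z)).div_const 2
      rw [sub_self, zero_div] at h2
      refine h2.congr' ?_
      filter_upwards [eventually_ge_atTop 1] with n hn
      have hn' : (0:ℝ) < n := by exact_mod_cast hn
      unfold avg
      rw [← Finset.sum_div, Finset.sum_sub_distrib, Finset.sum_congr rfl fun k _ => hFit k z]
      simp only [Finset.sum_const, Finset.card_range, nsmul_eq_mul]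
      field_simp)
  have h2 := single_aeL (pX := pY) (pY := pX) hS hT (fun z => (hTS z).symm) hY hc' hq hq0 hQt hE' g
    hg hg1 G hG
  filter_upwards [h1, h2] with z hz1 hz2
  have h3 := (hz2.const_mul (F z)).add (hz1.const_mul 2)
  rw [mul_zero, add_zero] at h3
  refine h3.congr fun N => ?_
  rw [← mul_assoc, mul_comm (F z), mul_assoc, ← mul_assoc 2, mul_comm (2:ℝ), mul_assoc, ← mul_add]
  congr 1
  rw [Finset.mul_sum, Finset.mul_sum, ← Finset.sum_add_distrib]
  refine Finset.sum_congr rfl fun k _ => ?_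
  rw [hFit]; ring

theorem main_oneL {a b : ℝ} (ha0 : 0 < a) (ha1 : a < 1) (hb0 : 0 < b) (hb1 : b < 1)
    (hgp : GoodL μ T S a b pX pY) (hT : MeasurePreserving T μ μ) (hS : MeasurePreserving S μ μ)
    (hTS : ∀ z, T (S z) = S (T z)) (f g : α → ℝ) (hf : Measurable f) (hg : Measurable g)
    (hf1 : ∀ z, |f z| ≤ 1) (hg1 : ∀ z, |g z| ≤ 1) :
    ∀ᵐ z ∂μ, Tendsto (fun N : ℕ => (N : ℝ)⁻¹ * ∑ k ∈ Finset.range N,
      f (T^[Nat.nth pX k + 1] z) * g (S^[Nat.nth pY k + 1] z)) atTop
        (𝓝 ((μ[f | MeasurableSpace.invariants T] z) * (μ[g | MeasurableSpace.invariants S] z))) := by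
  obtain ⟨c, hc, hE⟩ := hgp.eX
  obtain ⟨c', hc', hE'⟩ := hgp.eY
  obtain ⟨F, hF1, hF2, hF3, hF4⟩ := exists_lim (μ := μ) T f hf 1 zero_le_one hf1
  obtain ⟨G, hG1, hG2, hG3, hG4⟩ := exists_lim (μ := μ) S g hg 1 zero_le_one hg1
  have hbF := birkhoff hT f hf 1 hf1 F hF1 hF2 hF3
  have hbG := birkhoff hS g hg 1 hg1 G hG1 hG2 hG3
  have hFT : ∀ z, F (T z) = F z := fun z =>
    congrFun (MeasurableSpace.comp_eq_of_measurable_invariants hF1) z
  have hshift : ∀ (R : α → α) (u : α → ℝ) (_ : ∀ z, |u z| ≤ 1) (z : α) (L : ℝ),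
      Tendsto (fun n => avg R u n z) atTop (𝓝 L) →
      Tendsto (fun n => avg R (fun y => u (R y)) n z) atTop (𝓝 L) := by
    intro R u hu z L hL
    have h1 : Tendsto (fun n => avg R u n (R z) - avg R u n z) atTop (𝓝 0) := by
      refine squeeze_zero_norm (fun n => ?_)
        (by simpa only [zero_mul] using
          (tendsto_inv_atTop_nhds_zero_nat (𝕜 := ℝ)).mul_const (2 * 1) :
          Tendsto (fun n : ℕ => (n : ℝ)⁻¹ * (2 * 1)) atTop (𝓝 0))
      rw [Real.norm_eq_abs]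
      exact avg_shift (T := R) u 1 hu n z
    have h2 := h1.add hL
    rw [zero_add] at h2
    refine h2.congr fun n => ?_
    rw [sub_add_cancel]
    unfold avg
    congr 1
    refine Finset.sum_congr rfl fun k _ => ?_
    rw [← Function.iterate_succ_apply, Function.iterate_succ_apply']
  have key := prod_mainL hT hS hTS hgp.iX hgp.iY hc hc' (prb_anti a ha0.le) (prb_nonneg a)
    (prb_tendsto a ha0) (prb_sum_tendsto a ha0.le ha1) (prb_anti b hb0.le) (prb_nonneg b)
    (prb_sum_tendsto b hb0.le hb1) hE hE' (fun y => f (T y)) (fun y => g (S y))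
    (hf.comp hT.measurable) (hg.comp hS.measurable) (fun z => hf1 _) (fun z => hg1 _) F G
    (hF1.mono (MeasurableSpace.invariants_le T) le_rfl) hF2 hFT
    (by filter_upwards [hbF] with z hz using hshift T f hf1 z (F z) hz)
    (by filter_upwards [hbG] with z hz using hshift S g hg1 z (G z) hz)
  filter_upwards [key, hF4, hG4] with z h1 h2 h3
  rw [← h2, ← h3]
  refine h1.congr fun N => ?_
  congr 1
  refine Finset.sum_congr rfl fun k _ => ?_
  rw [Function.iterate_succ_apply', Function.iterate_succ_apply']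

theorem main_topL {a b : ℝ} (ha0 : 0 < a) (ha1 : a < 1) (hb0 : 0 < b) (hb1 : b < 1)
    (hgp : GoodL μ T S a b pX pY) (hT : MeasurePreserving T μ μ) (hS : MeasurePreserving S μ μ)
    (hTS : ∀ z, T (S z) = S (T z)) (f g : α → ℝ) (hf : MemLp f ⊤ μ) (hg : MemLp g ⊤ μ) :
    (∀ᵐ z ∂μ, Tendsto (fun N : ℕ => (N : ℝ)⁻¹ * ∑ k ∈ Finset.range N,
      f (T^[Nat.nth pX k + 1] z) * g (S^[Nat.nth pY k + 1] z)) atTop
        (𝓝 ((μ[f | MeasurableSpace.invariants T] z) * (μ[g | MeasurableSpace.invariants S] z)))) ∧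
    Tendsto (fun N : ℕ => eLpNorm (fun z => (N : ℝ)⁻¹ * ∑ k ∈ Finset.range N,
      f (T^[Nat.nth pX k + 1] z) * g (S^[Nat.nth pY k + 1] z)
      - (μ[f | MeasurableSpace.invariants T] z) * (μ[g | MeasurableSpace.invariants S] z)) 2 μ)
      atTop (𝓝 0) := by
  obtain ⟨C, hC, f', hf'm, hf'1, hff'⟩ := memLp_top_normalize f hf
  obtain ⟨D, hD, g', hg'm, hg'1, hgg'⟩ := memLp_top_normalize g hg
  have hcf : μ[f | MeasurableSpace.invariants T] =ᵐ[μ]
      fun z => C * μ[f' | MeasurableSpace.invariants T] z := by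
    have h1 : μ[f | MeasurableSpace.invariants T] =ᵐ[μ]
        μ[C • f' | MeasurableSpace.invariants T] := condExp_congr_ae hff'
    have h2 := condExp_smul (μ := μ) C f' (MeasurableSpace.invariants T)
    filter_upwards [h1, h2] with z h3 h4
    rw [h3, h4]; rfl
  have hcg : μ[g | MeasurableSpace.invariants S] =ᵐ[μ]
      fun z => D * μ[g' | MeasurableSpace.invariants S] z := by
    have h1 : μ[g | MeasurableSpace.invariants S] =ᵐ[μ]
        μ[D • g' | MeasurableSpace.invariants S] := condExp_congr_ae hgg'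
    have h2 := condExp_smul (μ := μ) D g' (MeasurableSpace.invariants S)
    filter_upwards [h1, h2] with z h3 h4
    rw [h3, h4]; rfl
  have horb : ∀ᵐ z ∂μ, ∀ N : ℕ, (N : ℝ)⁻¹ * ∑ k ∈ Finset.range N,
      f (T^[Nat.nth pX k + 1] z) * g (S^[Nat.nth pY k + 1] z)
      = (C * D) * ((N : ℝ)⁻¹ * ∑ k ∈ Finset.range N,
      f' (T^[Nat.nth pX k + 1] z) * g' (S^[Nat.nth pY k + 1] z)) := by
    have h1 : ∀ᵐ z ∂μ, ∀ k : ℕ, f (T^[k] z) = C * f' (T^[k] z) := by
      rw [ae_all_iff]
      intro k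
      exact (hT.iterate k).quasiMeasurePreserving.ae hff'
    have h2 : ∀ᵐ z ∂μ, ∀ k : ℕ, g (S^[k] z) = D * g' (S^[k] z) := by
      rw [ae_all_iff]
      intro k
      exact (hS.iterate k).quasiMeasurePreserving.ae hgg'
    filter_upwards [h1, h2] with z h3 h4 N
    rw [mul_left_comm]
    congr 1
    rw [Finset.mul_sum]
    refine Finset.sum_congr rfl fun k _ => ?_
    rw [h3, h4]; ring
  have hmain := main_oneL ha0 ha1 hb0 hb1 hgp hT hS hTS f' g' hf'm hg'm hf'1 hg'1
  have hae : ∀ᵐ z ∂μ, Tendsto (fun N : ℕ => (N : ℝ)⁻¹ * ∑ k ∈ Finset.range N,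
      f (T^[Nat.nth pX k + 1] z) * g (S^[Nat.nth pY k + 1] z)) atTop
        (𝓝 ((μ[f | MeasurableSpace.invariants T] z) *
          (μ[g | MeasurableSpace.invariants S] z))) := by
    filter_upwards [hmain, hcf, hcg, horb] with z h1 h2 h3 h4
    have h5 := h1.const_mul (C * D)
    have h6 : (C * D) * (μ[f' | MeasurableSpace.invariants T] z *
        μ[g' | MeasurableSpace.invariants S] z)
        = μ[f | MeasurableSpace.invariants T] z * μ[g | MeasurableSpace.invariants S] z := by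
      rw [h2, h3]; ring
    rw [h6] at h5
    exact h5.congr fun N => (h4 N).symm
  refine ⟨hae, ?_⟩
  -- mean convergence
  set Aw : ℕ → α → ℝ := fun N z => (C * D) * ((N : ℝ)⁻¹ * ∑ k ∈ Finset.range N,
      f' (T^[Nat.nth pX k + 1] z) * g' (S^[Nat.nth pY k + 1] z)) with hAw
  set Lim : α → ℝ := fun z => μ[f | MeasurableSpace.invariants T] z *
    μ[g | MeasurableSpace.invariants S] z with hLim
  have hAm : ∀ N, Measurable (Aw N) := by
    intro N
    refine measurable_const.mul (measurable_const.mul (Finset.measurable_sum _ fun k _ => ?_))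
    exact (hf'm.comp (hT.iterate _).measurable).mul (hg'm.comp (hS.iterate _).measurable)
  have hLm : AEStronglyMeasurable Lim μ :=
    (integrable_condExp.aestronglyMeasurable).mul (integrable_condExp.aestronglyMeasurable)
  have hAb : ∀ N z, |Aw N z| ≤ C * D := by
    intro N z
    simp only [hAw]
    rw [abs_mul, abs_of_pos (mul_pos hC hD)]
    have : |(N : ℝ)⁻¹ * ∑ k ∈ Finset.range N,
      f' (T^[Nat.nth pX k + 1] z) * g' (S^[Nat.nth pY k + 1] z)| ≤ 1 := by
      rcases Nat.eq_zero_or_pos N with h | h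
      · subst h; simp
      · have hN : (0:ℝ) < N := by exact_mod_cast h
        rw [abs_mul, abs_inv, abs_of_pos hN, inv_mul_le_iff₀ hN]
        calc _ ≤ ∑ k ∈ Finset.range N, |f' (T^[Nat.nth pX k + 1] z) * g' (S^[Nat.nth pY k + 1] z)| :=
              Finset.abs_sum_le_sum_abs _ _
          _ ≤ ∑ k ∈ Finset.range N, (1:ℝ) := by
              refine Finset.sum_le_sum fun k _ => ?_
              rw [abs_mul]
              have a1 := hf'1 (T^[Nat.nth pX k + 1] z)
              have a2 := hg'1 (S^[Nat.nth pY k + 1] z)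
              calc _ ≤ (1:ℝ) * 1 := by gcongr
                _ = 1 := one_mul 1
          _ = N * 1 := by simp
    have hCD : 0 < C * D := mul_pos hC hD
    nlinarith
  have hae' : ∀ᵐ z ∂μ, Tendsto (fun N => Aw N z) atTop (𝓝 (Lim z)) := by
    filter_upwards [hae, horb] with z h1 h2
    exact h1.congr h2
  have hLb : ∀ᵐ z ∂μ, |Lim z| ≤ C * D := by
    filter_upwards [hae'] with z hz
    exact le_of_tendsto hz.abs (Eventually.of_forall fun N => hAb N z)
  have hcongr : ∀ N : ℕ, eLpNorm (fun z => (N : ℝ)⁻¹ * ∑ k ∈ Finset.range N,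
      f (T^[Nat.nth pX k + 1] z) * g (S^[Nat.nth pY k + 1] z)
      - (μ[f | MeasurableSpace.invariants T] z) * (μ[g | MeasurableSpace.invariants S] z)) 2 μ
      = (∫⁻ z, ‖Aw N z - Lim z‖ₑ ^ (2:ℝ) ∂μ) ^ (1 / (2:ℝ)) := by
    intro N
    rw [eLpNorm_congr_ae (g := fun z => Aw N z - Lim z)]
    · rw [eLpNorm_eq_lintegral_rpow_enorm_toReal (by norm_num) (by norm_num)]
      norm_num
    · filter_upwards [horb] with z hz
      rw [hz N]
  simp_rw [hcongr]
  have hlim0 : Tendsto (fun N => ∫⁻ z, ‖Aw N z - Lim z‖ₑ ^ (2:ℝ) ∂μ) atTop (𝓝 0) := by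
    have h1 := tendsto_lintegral_of_dominated_convergence' (μ := μ)
      (F := fun N z => ‖Aw N z - Lim z‖ₑ ^ (2:ℝ)) (f := fun _ => 0)
      (fun _ => (ENNReal.ofReal (2 * (C * D))) ^ (2:ℝ))
      (fun N => ((((hAm N).aestronglyMeasurable).sub hLm).enorm).pow_const _)
      (fun N => by
        filter_upwards [hLb] with z hz
        gcongr
        rw [← ofReal_norm, Real.norm_eq_abs]
        apply ENNReal.ofReal_le_ofReal
        calc _ ≤ |Aw N z| + |Lim z| := abs_sub _ _
          _ ≤ _ := by have := hAb N z; linarith)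
      (by
        rw [lintegral_const, measure_univ, mul_one]
        exact (ENNReal.rpow_lt_top_of_nonneg (by norm_num) ENNReal.ofReal_ne_top).ne)
      (by
        filter_upwards [hae'] with z hz
        have h2 : Tendsto (fun N => Aw N z - Lim z) atTop (𝓝 0) := by
          have := hz.sub_const (Lim z)
          rwa [sub_self] at this
        have h3 : Tendsto (fun N => ‖Aw N z - Lim z‖ₑ) atTop (𝓝 0) := by
          have := h2.enorm
          simpa using this
        have h4 := (ENNReal.continuous_rpow_const (y := (2:ℝ))).tendsto 0 |>.comp h3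
        simpa [Function.comp_def] using h4)
    simpa using h1
  have h5 := (ENNReal.continuous_rpow_const (y := 1 / (2:ℝ))).tendsto 0 |>.comp hlim0
  simpa [Function.comp_def] using h5

end Pool.Agent.Helper24.KK
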