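import Pool.Agent.Helper24.KK.Defs
import Pool.Agent.Helper15.An.Chern
import Pool.Agent.Helper49.RS.Exp

/-!
# Project KK (MP_9a4587_an), goals B: the matrix martingale inequality

Tools: Golden-Thompson `Pool.Agent.Helper15.An.golden_thompson`, spectral lemmas in
Pool/Agent/Helper15/An/Spec.lean and Chern.lean (`exp_smul_spec`, `trace_exp`, `trace_mul_mono`,
`posSemidef_affine`, ...), `PredBern`, `scalar_ineq`, `bdd_integrable` in
Pool/Agent/Helper49/RS/Exp.lean.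
-/

set_option autoImplicit false

namespace Pool.Agent.Helper24.KK

open Finset MeasureTheory Filter Matrix
open Pool.Agent.Helper49.RS (PredBern)
open scoped ComplexOrder

/-- EIG. Eigenvalues are bounded by the row sums. PROOF. `eigenvalue_mem_ball` (Gershgorin) or
directly: for an eigenvector `w` take `i` with `‖w i‖` maximal: `|λ| ‖w i‖ ≤ ∑ j, ‖H i j‖ ‖w j‖`. -/
def EIG : Prop := ∀ (d : Type) [Fintype d] [DecidableEq d] (H : Matrix d d ℂ)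
  (hH : H.IsHermitian) (δ : ℝ), (∀ i, ∑ j, ‖H i j‖ ≤ δ) → ∀ i, |hH.eigenvalues i| ≤ δ

/-- OPI. PROOF. Diagonalize `H` (`exp_smul_spec`): the matrix is `U * diagonal (c i) * Uᴴ` with
`c i = exp (p θ^2 δ^2) - (p exp (θ (1-p) λ i) + (1-p) exp (-θ p λ i)) ≥ 0` by `scalar_ineq` with
`z = θ λ i`, `|z| ≤ θ δ ≤ 1`, `z^2 ≤ θ^2 δ^2`. -/
def OPI : Prop := ∀ (d : Type) [Fintype d] [DecidableEq d] (H : Matrix d d ℂ)
  (hH : H.IsHermitian) (p δ θ : ℝ), 0 ≤ p → p ≤ 1 → 0 ≤ θ → θ * δ ≤ 1 →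
  (∀ i, |hH.eigenvalues i| ≤ δ) →
  (Real.exp (p * (θ ^ 2 * δ ^ 2)) • (1 : Matrix d d ℂ) -
    (p • NormedSpace.exp ((θ * (1 - p)) • H) +
      (1 - p) • NormedSpace.exp ((-(θ * p)) • H))).PosSemidef

/-- STP. You may assume OPI. PROOF. `golden_thompson` for `S` and `(θ (1-p)) • H`, resp.
`(-(θ p)) • H`, so the left side is at most `tr (exp S * (p exp (..) + (1-p) exp (..)))`, and
`trace_mul_mono` with `exp S ≥ 0` (`exp_posSemidef`) and OPI. -/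
def STP : Prop := ∀ (d : Type) [Fintype d] [DecidableEq d] (S H : Matrix d d ℂ)
  (_ : S.IsHermitian) (hH : H.IsHermitian) (p δ θ : ℝ), 0 ≤ p → p ≤ 1 → 0 ≤ θ → θ * δ ≤ 1 →
  (∀ i, |hH.eigenvalues i| ≤ δ) →
  p * (trace (NormedSpace.exp (S + (θ * (1 - p)) • H))).re
    + (1 - p) * (trace (NormedSpace.exp (S + (-(θ * p)) • H))).re
    ≤ Real.exp (p * (θ ^ 2 * δ ^ 2)) * (trace (NormedSpace.exp S)).re

/-- MGF. You may assume EIG and STP. PROOF. Induction on `n`. Put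
`Z n ω = θ • ∑ p < n, (X p ω - q p) • cm (A p ω)`, Hermitian. `n = 0`: `tr 1 = card d`. Step: as
`X n ω ∈ {0, 1}`,
`tr exp (Z (n+1)) = X n * Φ1 + (1 - X n) * Φ2` with `Φ1 = tr exp (Z n + (θ (1 - q n)) • cm (A n))`
and `Φ2 = tr exp (Z n + (-(θ q n)) • cm (A n))`. Both are `F n`-measurable (`NormedSpace.exp` is
continuous, the trace is continuous, the entries are measurable; use a local normed algebra
structure on matrices as in Mathlib's `Matrix.exp` file, or work with the entries) and bounded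
(eigenvalues are bounded by EIG: the row sums of `Z n + ...` are at most `(n + 1) θ δ`, and
`trace_exp`). `PredBern.fac` gives `∫ = q n ∫ Φ1 + (1 - q n) ∫ Φ2 ≤ exp (q n θ^2 δ^2) ∫ tr exp (Z n)`
by STP for every `ω`; the row sums of `cm (A n ω)` are at most `δ` (half of a row sum plus half of
a column sum). -/
def MGF : Prop := ∀ (Ω : Type) [MeasurableSpace Ω] (P : Measure Ω) [IsProbabilityMeasure P]
  (X : ℕ → Ω → ℝ) (q : ℕ → ℝ) (F : ℕ → MeasurableSpace Ω), PredBern P X q F →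
  ∀ (d : Type) [Fintype d] [DecidableEq d] (A : ℕ → Ω → d → d → ℝ) (δ θ : ℝ),
    (∀ n i j, Measurable[F n] (fun ω => A n ω i j)) →
    (∀ n ω i, ∑ j, |A n ω i j| ≤ δ) → (∀ n ω j, ∑ i, |A n ω i j| ≤ δ) → 0 ≤ θ → θ * δ ≤ 1 →
    ∀ n : ℕ, Integrable (fun ω => (trace (NormedSpace.exp
        (θ • ∑ p ∈ range n, (X p ω - q p) • cm (A p ω)))).re) P ∧
      ∫ ω, (trace (NormedSpace.exp (θ • ∑ p ∈ range n, (X p ω - q p) • cm (A p ω)))).re ∂P
        ≤ Fintype.card d * Real.exp ((θ ^ 2 * δ ^ 2) * ∑ p ∈ range n, q p)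

/-- TAI. PROOF. `⟨w, cm Z w⟩ = ∑ i j, Z i j w i w j` (real `w`). If all eigenvalues of `cm Z` were
smaller than `t`, then `⟨w, cm Z w⟩ ≤ t ‖w‖^2` (`posSemidef_of_eigenvalues_le`); so there is an
eigenvalue `λ ≥ t`, and `exp (θ t) ≤ exp (θ λ) ≤ ∑ i, exp (θ λ i) = tr exp (θ cm Z)`
(`trace_exp_smul`). -/
def TAI : Prop := ∀ (d : Type) [Fintype d] [DecidableEq d] (Z : d → d → ℝ) (θ t : ℝ) (w : d → ℝ),
  0 ≤ θ → t * ∑ i, w i ^ 2 < ∑ i, ∑ j, Z i j * (w i * w j) →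
  Real.exp (θ * t) ≤ (trace (NormedSpace.exp (θ • cm Z))).re

/-- BCK. You may assume MGF and TAI. PROOF. For good `M` the event
`E M = {ω | Real.exp (θ M * t M) ≤ tr exp (θ M • ∑ p < M, (X p ω - q p) • cm (A M p ω))}` has
probability at most `exp (- θ t) * card d * exp (θ^2 δ^2 ∑ q) ≤ (M^2)⁻¹` by MGF and Markov
(`meas_ge_le_lintegral_div` or `mul_meas_ge_le_integral_of_nonneg`). By Borel-Cantelli
(`measure_limsup_atTop_eq_zero` or `ae_eventually_notMem`; replace `E M` by `∅` for the finitely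
many bad `M`) almost every `ω` is in only finitely many `E M`; outside `E M` use TAI with
`Z i j = ∑ p < M, (X p ω - q p) * A M p ω i j`; `θ • cm Z = θ • ∑ p, (X p ω - q p) • cm (A M p ω)`. -/
def BCK : Prop := ∀ (Ω : Type) [MeasurableSpace Ω] (P : Measure Ω) [IsProbabilityMeasure P]
  (X : ℕ → Ω → ℝ) (q : ℕ → ℝ) (F : ℕ → MeasurableSpace Ω), PredBern P X q F →
  ∀ (d : ℕ → Type) [∀ M, Fintype (d M)] [∀ M, DecidableEq (d M)]
    (A : ∀ M : ℕ, ℕ → Ω → d M → d M → ℝ) (δ θ t : ℕ → ℝ),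
    (∀ M n i j, Measurable[F n] (fun ω => A M n ω i j)) →
    (∀ᶠ M : ℕ in atTop, (∀ n ω i, ∑ j, |A M n ω i j| ≤ δ M) ∧
      (∀ n ω j, ∑ i, |A M n ω i j| ≤ δ M) ∧ 0 ≤ θ M ∧ θ M * δ M ≤ 1 ∧
      (Fintype.card (d M) : ℝ) * Real.exp (-(θ M * t M) + (θ M ^ 2 * δ M ^ 2) *
        ∑ p ∈ range M, q p) ≤ ((M : ℝ) ^ 2)⁻¹) →
    ∀ᵐ ω ∂P, ∀ᶠ M : ℕ in atTop, ∀ w : d M → ℝ,
      ∑ i, ∑ j, (∑ p ∈ range M, (X p ω - q p) * A M p ω i j) * (w i * w j)
        ≤ t M * ∑ i, w i ^ 2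

end Pool.Agent.Helper24.KK
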