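import Pool.Agent.Helper24.KK.Defs
import Pool.Agent.Helper49.RS.Prob

/-!
# Project KK (MP_9a4587_an), goals C: the random sequences and the parameters

`ind`, `bt` (Pool/Agent/Helper49/RS/Seq.lean), `prb`, `pB`, `ev_pow`, `ev_log`, `ceil_le_two`
(Param.lean), `GoodAt`, `sum_rpow_le` (Facts.lean), `pr`, `pastF`, `meas_count`, `meas_bt`,
`past_meas_inl`, `past_meas_inr` (Meas.lean) are those of helper49's proof for `a, b < 1/2`.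
-/

set_option autoImplicit false

namespace Pool.Agent.Helper24.KK

open Finset MeasureTheory Filter
open Pool.Agent.Helper49.RS

/-- Admissible exponents: `a, b < 2/3`. -/
structure Ex (a b ε τ : ℝ) : Prop where
  a0 : 0 < a
  a1 : a < 1
  b0 : 0 < b
  b1 : b < 1
  ε0 : 0 < ε
  hτ : τ * (1 - b) = 1 - a + 2 * ε
  c1 : 1 + 40 * ε ≤ 3 * (1 - a)
  c2 : τ + 40 * ε ≤ 3 * (1 - a)

/-- number of positions, `C` is a fixed integer. -/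
noncomputable def sR (C : ℕ) (τ : ℝ) (M : ℕ) : ℕ := C * (M + pB τ M)
/-- level -/
noncomputable def sl (a ε : ℝ) (M : ℕ) : ℕ := ⌈(M : ℝ) ^ (1 - a - 12 * ε)⌉₊
/-- gap weight -/
noncomputable def sW (ε : ℝ) (M : ℕ) : ℝ := (M : ℝ) ^ ε
/-- total weight -/
noncomputable def sN (a ε : ℝ) (M : ℕ) : ℝ := (M : ℝ) ^ (1 - a + ε)
/-- degree -/
noncomputable def sΔ (C : ℕ) (a ε τ : ℝ) (M : ℕ) : ℝ :=
  4 * avd (sR C τ M) (sl a ε M) (sW ε M) (sN a ε M)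
/-- bound for the row sums -/
noncomputable def sδ (C : ℕ) (a ε τ : ℝ) (M : ℕ) : ℝ :=
  2 * sΔ C a ε τ M / dz (sR C τ M) (sl a ε M)
/-- exponent -/
noncomputable def sρ (C : ℕ) (a ε τ : ℝ) (M : ℕ) : ℝ :=
  2 * (sl a ε M) * Real.log (sR C τ M) + 4 * Real.log M
/-- deviation -/
noncomputable def st (C : ℕ) (a ε τ : ℝ) (M : ℕ) : ℝ :=
  2 * sδ C a ε τ M * Real.sqrt (sρ C a ε τ M * sN a ε M)
/-- Laplace parameter -/
noncomputable def sθ (C : ℕ) (a ε τ : ℝ) (M : ℕ) : ℝ :=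
  Real.sqrt (sρ C a ε τ M / sN a ε M) / sδ C a ε τ M

/-- EXN. PROOF. `ε = min (2/3 - a) (2/3 - b) / 42`, `τ = (1 - a + 2 ε) / (1 - b)`. With
`s = 2/3 - b`: `(3 (1 - a) - 40 ε) (1 - b) = (1 - a) (1 + 3 s) - 40 ε (1 - b)
≥ 1 - a + 2 ε` since `3 s (1 - a) ≥ s ≥ 42 ε`. -/
def EXN : Prop := ∀ a b : ℝ, 0 < a → a < 2 / 3 → 0 < b → b < 2 / 3 → ∃ ε τ, Ex a b ε τ

/-- GAP. Weight of a fibre of `bt`. PROOF. If the set is empty the sum is `0`. Otherwise all its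
elements `k` have the same `count pX k = c` (`bt_inj`), so it is an interval `Ico i j`, `j ≤ M` (the
count is monotone; equal counts give equal `bt`), and `pX` holds at most at its last element
(`count pX (k+1) = count pX k + 1` if `pX k`). So `∑ Ico i j, ind ≤ 1`, and by `GoodAt.lo`
`∑ Ico i j, prb ≤ 2 + 16 log M`. Add: `|ind - prb| ≤ ind + prb`. -/
def GAP : Prop := ∀ (a : ℝ) (pX pY : ℕ → Prop) [DecidablePred pX] [DecidablePred pY] (M : ℕ),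
  (Set.ofPred pY).Infinite → GoodAt (ind pX) (prb a) M → ∀ b : ℕ,
  ∑ k ∈ (range M).filter (fun k => bt pX pY k = b), |ind pX k - prb a k| ≤ 3 + 16 * Real.log M

/-- SXB. Total weight. PROOF. `|ind - prb| ≤ ind + prb`, `∑ ind ≤ 2 ∑ prb + 4 log M` (`GoodAt.up`),
`∑ prb ≤ M ^ (1-a) / (1-a)` (`sum_rpow_le`), and `ev_pow`, `ev_log`. -/
def SXB : Prop := ∀ (a ε : ℝ) (pX : ℕ → Prop) [DecidablePred pX], 0 < a → a < 1 → 0 < ε →
  (∀ᶠ L : ℕ in atTop, GoodAt (ind pX) (prb a) L) →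
  ∀ᶠ M : ℕ in atTop, ∑ n ∈ range M, |ind pX n - prb a n| ≤ sN a ε M ∧
    ∑ n ∈ range M, prb a n ≤ sN a ε M

/-- CLO. Lower bound for the number of elements. PROOF. `GoodAt.lo` for `(0, M)`,
`sum_prb_lower a 0 M M` gives `∑ prb ≥ M ^ (1 - a)`, and `8 log M ≤ (3/8) M ^ (1-a)` eventually. -/
def CLO : Prop := ∀ (a : ℝ) (pX : ℕ → Prop) [DecidablePred pX], 0 < a → a < 1 →
  (∀ᶠ L : ℕ in atTop, GoodAt (ind pX) (prb a) L) →
  ∀ᶠ M : ℕ in atTop, (1 / 8) * (M : ℝ) ^ (1 - a) ≤ (Nat.count pX M : ℝ)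

/-- BBD. Bound for the second times. PROOF. `bt pX pY n = nth pY (count pX n) < B` if
`count pX n < count pY B` (`Nat.nth_lt_of_lt_count`). `count pX n ≤ count pX M ≤ 2 ∑ prb a + 4 log M
≤ (2/(1-a)) M ^ (1-a) + 4 log M`; `count pY B ≥ (1/2) B ^ (1 - b) - 8 log B` and
`B ^ (1 - b) ≥ M ^ (τ (1-b)) = M ^ (1 - a + 2 ε)`, `log B ≤ log (2 M ^ τ)`. Here `B = pB τ M` tends to
infinity with `M`, so `GoodAt (ind pY) (prb b) B` holds eventually. Compare `bB_ev` in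
Pool/Agent/Helper49/RS/ScaleEv.lean. -/
def BBD : Prop := ∀ (a b ε τ : ℝ), Ex a b ε τ → ∀ (pX pY : ℕ → Prop) [DecidablePred pX]
  [DecidablePred pY], (∀ᶠ L : ℕ in atTop, GoodAt (ind pX) (prb a) L) →
  (∀ᶠ L : ℕ in atTop, GoodAt (ind pY) (prb b) L) →
  ∀ᶠ M : ℕ in atTop, ∀ n < M, bt pX pY n < pB τ M

/-- LEN. Simple conditions. PROOF. `sl ≤ M` as `1 - a - 12 ε < 1` (`ev_pow`, `ceil_le_two`), and
`sR ≥ 2 M`; `τ > 0` as `τ (1 - b) > 0`. -/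
def LEN : Prop := ∀ (C : ℕ) (a b ε τ : ℝ), Ex a b ε τ → 2 ≤ C → ∀ᶠ M : ℕ in atTop,
  1 ≤ sl a ε M ∧ 2 * sl a ε M ≤ sR C τ M ∧ 0 < sΔ C a ε τ M ∧ 1 ≤ sW ε M ∧
    3 + 16 * Real.log M ≤ sW ε M

/-- SMN. The numbers for BCK. You may assume LEN and the statement RAT of GoalsA (import it) for
`0 < dz`. PROOF. `θ t = 2 ρ`; `θ δ = sqrt (ρ / N) ≤ 1` since `ρ ≤ N` eventually: `R ≤ C (M + 2 M ^ τ)`,
so `log R ≤ C' log M`, `2 l log R ≤ 4 C' M ^ (1 - a - 12 ε) log M ≤ M ^ (1 - a)`; `θ^2 δ^2 = ρ / N`, so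
`- θ t + θ^2 δ^2 ∑ prb ≤ - 2 ρ + ρ = - ρ` (as `∑ prb a ≤ N` by `sum_rpow_le`), and
`exp (2 l log R) exp (- ρ) = M ^ (-4) ≤ M ^ (-2)`. -/
def SMN : Prop := ∀ (C : ℕ) (a b ε τ : ℝ), Ex a b ε τ → 2 ≤ C → ∀ᶠ M : ℕ in atTop,
  0 ≤ sθ C a ε τ M ∧ sθ C a ε τ M * sδ C a ε τ M ≤ 1 ∧
  Real.exp (2 * (sl a ε M) * Real.log (sR C τ M)) *
    Real.exp (-(sθ C a ε τ M * st C a ε τ M) + (sθ C a ε τ M ^ 2 * sδ C a ε τ M ^ 2) *
      ∑ p ∈ range M, prb a p) ≤ ((M : ℝ) ^ 2)⁻¹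

/-- FIN. The final numerical inequality. You may assume LEN. PROOF. Write `l, R, W, N, Δ, ρ`. The
hypothesis `H` below is RAT. `C(R,l)^2 * st ≤ 4 (R/l)^2 dz * 2 * (2 Δ / dz) * sqrt (ρ N) =
16 (R/l)^2 Δ sqrt (ρ N)`. `Δ = 4 (W + (2 l / R + l^2 / R) N) ≤ 16 l^2 N / R` because `1 ≤ l` and
`W ≤ l^2 N / R`: `R W ≤ C (M + 2 M ^ τ) M ^ ε ≤ M ^ (3 (1 - a) - 23 ε) ≤ l^2 N` eventually by `c1, c2`.
So `C(R,l)^2 * st ≤ 256 R N sqrt (ρ N) = 256 C (M + B) N sqrt (ρ N)`, and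
`ρ ≤ M ^ (1 - a - 11 ε)` eventually, `sqrt (ρ N) ≤ M ^ (1 - a - 5 ε)`. Hence the left side is at most
`(M + B) (M ^ (1 - a + ε) (1 + 2 M ^ ε) + 512 C M ^ (2 (1-a) - 4 ε))`, and the right side is
`(M + B) (1/64) M ^ (2 (1-a) - ε)`; `1 - a + 2 ε < 2 (1 - a) - ε` by `c1`. -/
def FIN : Prop := ∀ (C : ℕ) (a b ε τ : ℝ), Ex a b ε τ → 2 ≤ C →
  (∀ (R l : ℕ), 1 ≤ l → 2 * l ≤ R →
    ((R.choose l : ℕ) : ℝ) ^ 2 ≤ 4 * ((R : ℝ) / l) ^ 2 * dz R l ∧ 0 < dz R l) →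
  ∀ᶠ M : ℕ in atTop,
  ((M : ℝ) + pB τ M) * (sN a ε M * (1 + 2 * sW ε M))
    + 2 * (((sR C τ M).choose (sl a ε M) : ℝ) ^ 2 * st C a ε τ M)
    ≤ ((M : ℝ) + pB τ M) * (((1 / 8) * (M : ℝ) ^ (1 - a)) ^ 2 * (M : ℝ) ^ (-ε))

/-- MEA. Measurability of the Kikuchi matrices. PROOF. `kA` is built by finite sums and products from:
`|x k|`, `x k` for `k < n`, measurable w.r.t. `pastF ξ η n` (`meas_ind`, `past_meas_inl`); numbers
which depend only on `bt .. k` for `k ≤ n`, measurable with values in `ℕ` (`meas_bt`, it needs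
`ξ m` for `m < k ≤ n` and all `η m`), composed with functions on the discrete space `ℕ` or `ℕ × ℕ`
(cardinalities of filters, `Ent`); the conditions `rdeg ≤ Δ`, `cdeg ≤ Δ`, `dz / 2 ≤ nk`
(`measurableSet_le`, `Measurable.ite`). Start with: `{ω | Kept ... I J}` is measurable; then `nk` is
a finite sum of indicator functions (`Finset.card_filter`). -/
def MEA : Prop := ∀ (Ω : Type) [MeasurableSpace Ω] (ξ η : ℕ → Ω → ℕ), (∀ n, Measurable (ξ n)) →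
  (∀ n, Measurable (η n)) → ∀ (Φ Mm : Type) [Fintype Φ] [DecidableEq Φ] [Fintype Mm]
  [DecidableEq Mm] (l : ℕ) (π : ℕ → ℝ) (u V : ℕ → Mm → Φ) (Δ : ℝ) (n : ℕ) (I J : Ix Φ l),
  Measurable[pastF ξ η n] (fun ω => kA (fun k => ind (pr ξ ω) k - π k) u
    (fun k => V (bt (pr ξ ω) (pr η ω) k)) Δ n I J)

end Pool.Agent.Helper24.KK
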