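import Pool.Agent.Helper24.KK.GoalsA
import Pool.Agent.Helper24.KK.GoalsB
import Pool.Agent.Helper24.KK.GoalsC
import Pool.Agent.Helper24.KK.Erg

/-!
# Project KK: assembly
-/

set_option autoImplicit false
open MeasureTheory ProbabilityTheory Filter Topology Finset

namespace Pool.Agent.Helper24.KK

open Pool.Agent.Helper49.RS hiding err_ae lln_sub single_ae prod_zero prod_main main_one main_top

/-- All goals which are used. -/
structure Goals : Prop where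
  ext : EXT
  nkg : NKG
  row : ROW
  col : COL
  frm : FRM
  spl : SPL
  rat : RAT
  crd : CRD
  trg : TRG
  ptw : PTW
  pos : POS
  bck : BCK
  exn : EXN
  gap : GAP
  sxb : SXB
  clo : CLO
  bbd : BBD
  len : LEN
  smn : SMN
  fin : FIN
  mea : MEA

lemma wv_sq {Φ : Type} {l : ℕ} (F G : Φ → ℝ) (hF : ∀ s, F s = 1 ∨ F s = -1)
    (hG : ∀ s, G s = 1 ∨ G s = -1) (I : Ix Φ l) : wv F G I ^ 2 = 1 := by
  have hF2 : ∀ s, F s ^ 2 = 1 := fun s => by rcases hF s with h | h <;> rw [h] <;> norm_num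
  have hG2 : ∀ s, G s ^ 2 = 1 := fun s => by rcases hG s with h | h <;> rw [h] <;> norm_num
  unfold wv
  rw [mul_pow, ← Finset.prod_pow, ← Finset.prod_pow]
  simp [hF2, hG2]

/-- The deterministic bound. -/
lemma det_bound (h : Goals) {Φ Mm : Type} [Fintype Φ] [DecidableEq Φ] [Fintype Mm]
    [DecidableEq Mm] (l M : ℕ) (x : ℕ → ℝ) (u v : ℕ → Mm → Φ) (W Xb Δ t : ℝ)
    (hg : Good x u v M W Xb) (hl : 1 ≤ l) (hl2 : 2 * l ≤ Fintype.card Φ) (hΔ : 0 < Δ)
    (hΔ2 : 4 * avd (Fintype.card Φ) l W Xb ≤ Δ)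
    (hspec : ∀ w : Ix Φ l → ℝ, ∑ I, ∑ J, (∑ n ∈ range M, x n * kA x u v Δ n I J) * (w I * w J)
      ≤ t * ∑ I, w I ^ 2) (F G : Φ → ℝ) (hF : ∀ s, F s = 1 ∨ F s = -1)
    (hG : ∀ s, G s = 1 ∨ G s = -1) :
    Qf M x u v F G ≤ Fintype.card Mm * (Xb * (1 + 2 * W))
      + 2 * (((Fintype.card Φ).choose l : ℝ) ^ 2 * t) := by
  have h1 := h.spl Φ Mm M x u v W Xb F G hg hF hG
  have hdz := (h.rat (Fintype.card Φ) l hl hl2).2
  have h2 : ∑ n ∈ range M, x n * mainS x u v F G n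
      = ∑ I : Ix Φ l, ∑ J : Ix Φ l, (∑ n ∈ range M, x n * kA x u v Δ n I J) *
        (wv F G I * wv F G J) := by
    have e1 : ∀ n ∈ range M, x n * mainS x u v F G n
        = ∑ I : Ix Φ l, ∑ J : Ix Φ l, x n * kA x u v Δ n I J * (wv F G I * wv F G J) := by
      intro n hn
      rw [← h.frm Φ Mm l x u v Δ n F G hdz hF hG (fun k hk m hm =>
        h.nkg Φ Mm l M x u v W Xb Δ hg hl hl2 hΔ hΔ2 n (mem_range.mp hn) k hk m hm)]
      rw [Finset.mul_sum]
      refine Finset.sum_congr rfl fun I _ => ?_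
      rw [Finset.mul_sum]
      exact Finset.sum_congr rfl fun J _ => by ring
    rw [Finset.sum_congr rfl e1, Finset.sum_comm]
    refine Finset.sum_congr rfl fun I _ => ?_
    rw [Finset.sum_comm]
    refine Finset.sum_congr rfl fun J _ => ?_
    rw [Finset.sum_mul]
  have h3 := hspec (wv F G)
  have h4 : ∑ I : Ix Φ l, wv F G I ^ 2 = ((Fintype.card Φ).choose l : ℝ) ^ 2 := by
    rw [Finset.sum_congr rfl fun I _ => wv_sq F G hF hG I]
    rw [Finset.sum_const, Finset.card_univ, nsmul_eq_mul, mul_one]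
    exact (h.crd Φ l (by omega)).1
  rw [h4] at h3
  rw [h2] at h1
  linarith

lemma card_pos (p q M B : ℕ) :
    Fintype.card (Fin ((4 * p * q + 4) * (M + B)) × Fin q) = ((4 * p * q + 4) * q) * (M + B) := by
  rw [Fintype.card_prod, Fintype.card_fin, Fintype.card_fin]; ring

lemma good_pos (h : Goals) (sg : Bool) (p q M B : ℕ) (hp : 0 < p) (hq : 0 < q) (x : ℕ → ℝ)
    (β : ℕ → ℕ) (W Xb : ℝ) (hβ : ∀ n < M, β n < B) (hx : ∀ n < M, |x n| ≤ 1) (hW : 1 ≤ W)
    (hs : ∑ n ∈ range M, |x n| ≤ Xb)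
    (hgap : ∀ b, ∑ k ∈ (range M).filter (fun k => β k = b), |x k| ≤ W) :
    Good x (upos p q M B) (fun k => vpos sg p q M B (β k)) M W Xb := by
  obtain ⟨h1, h2, h3, h4⟩ := h.pos sg p q M B hp hq
  refine ⟨h1, fun n hn => h3 _ (hβ n hn), fun n hn k hk m hm => h2 n hn k hk m hm, hx, hW, hs, ?_⟩
  intro m s
  rcases ((range M).filter (fun k => vpos sg p q M B (β k) m = s)).eq_empty_or_nonempty with he | hne
  · simp only [he, Finset.sum_empty]; linarith
  · obtain ⟨k0, hk0⟩ := hne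
    obtain ⟨hk1, hk2⟩ := Finset.mem_filter.mp hk0
    refine le_trans (Finset.sum_le_sum_of_subset_of_nonneg ?_ fun _ _ _ => abs_nonneg _)
      (hgap (β k0))
    intro k hk
    obtain ⟨hk3, hk4⟩ := Finset.mem_filter.mp hk
    refine Finset.mem_filter.mpr ⟨hk3, ?_⟩
    exact h4 _ (hβ k (mem_range.mp hk3)) _ (hβ k0 (mem_range.mp hk1)) m (by rw [hk4, hk2])

lemma abs_ind_sub (pX : ℕ → Prop) [DecidablePred pX] (a : ℝ) (ha : 0 ≤ a) (n : ℕ) :
    |ind pX n - prb a n| ≤ 1 := by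
  have h1 := prb_nonneg a n
  have h2 := prb_le_one a ha n
  unfold ind
  split_ifs <;> rw [abs_le] <;> constructor <;> linarith

/-- The spectral bound which is true for almost all samples. -/
def Spec (sg : Bool) (p q : ℕ) (a ε τ : ℝ) (pX pY : ℕ → Prop) [DecidablePred pX] : Prop :=
  ∀ᶠ M : ℕ in atTop, ∀ w : Ix (Fin ((4 * p * q + 4) * (M + pB τ M)) × Fin q) (sl a ε M) → ℝ,
    ∑ I, ∑ J, (∑ n ∈ range M, (ind pX n - prb a n) *
      kA (fun k => ind pX k - prb a k) (upos p q M (pB τ M))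
        (fun k => vpos sg p q M (pB τ M) (bt pX pY k)) (sΔ ((4 * p * q + 4) * q) a ε τ M) n I J)
      * (w I * w J) ≤ st ((4 * p * q + 4) * q) a ε τ M * ∑ I, w I ^ 2

lemma err_of_spec (h : Goals) {a b ε τ : ℝ} (e : Ex a b ε τ) (sg : Bool) (p q : ℕ) (hp : 0 < p)
    (hq : 0 < q) (pX pY : ℕ → Prop) [DecidablePred pX] [DecidablePred pY]
    (hY : (Set.ofPred pY).Infinite)
    (hgX : ∀ᶠ L : ℕ in atTop, GoodAt (ind pX) (prb a) L)
    (hgY : ∀ᶠ L : ℕ in atTop, GoodAt (ind pY) (prb b) L) (hspec : Spec sg p q a ε τ pX pY)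
    {α : Type} [MeasurableSpace α] (μ : Measure α) [IsProbabilityMeasure μ] (T S : α → α)
    (hT : MeasurePreserving T μ μ) (hS : MeasurePreserving S μ μ) (hTS : ∀ z, T (S z) = S (T z))
    (hD : Dep sg p q T S) : ErrLoc μ T S pX pY (prb a) ε := by
  set C := (4 * p * q + 4) * q with hC
  have hC2 : 2 ≤ C := by
    have : 4 * 1 ≤ (4 * p * q + 4) * q := Nat.mul_le_mul (by omega) hq
    omega
  have hfin := h.fin C a b ε τ e hC2 (fun R l h1 h2 => h.rat R l h1 h2)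
  unfold ErrLoc
  filter_upwards [hspec, hgX, h.len C a b ε τ e hC2, hfin,
    h.sxb a ε pX e.a0 e.a1 e.ε0 hgX, h.clo a pX e.a0 e.a1 hgX, h.bbd a b ε τ e pX pY hgX hgY,
    eventually_ge_atTop 1] with M hsp hG hlen hf hsx hcl hbb hM1
  obtain ⟨hl1, hl2, hΔ, hW1, hgW⟩ := hlen
  intro f g hfm hgm hf1 hg1
  set B := pB τ M with hB
  have hMR : (1 : ℝ) ≤ M := by exact_mod_cast hM1
  have hgood : Good (fun k => ind pX k - prb a k) (upos p q M B)
      (fun k => vpos sg p q M B (bt pX pY k)) M (sW ε M) (sN a ε M) := by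
    refine good_pos h sg p q M B hp hq _ _ _ _ hbb (fun n _ => abs_ind_sub pX a e.a0.le n) hW1
      hsx.1 fun b => ?_
    exact (h.gap a pX pY M hY hG b).trans hgW
  have hcard : Fintype.card (Fin ((4 * p * q + 4) * (M + B)) × Fin q) = sR C τ M := card_pos p q M B
  have hdet := det_bound h (sl a ε M) M (fun k => ind pX k - prb a k) (upos p q M B)
    (fun k => vpos sg p q M B (bt pX pY k)) (sW ε M) (sN a ε M) (sΔ C a ε τ M) (st C a ε τ M)
    hgood hl1 (by rw [hcard]; exact hl2) hΔ (by rw [hcard]; exact le_rfl) hsp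
  have hext := h.ext _ _ M (fun k => ind pX k - prb a k) (upos p q M B)
    (fun k => vpos sg p q M B (bt pX pY k)) _ hdet
  have htr := h.trg _ _ M (fun k => ind pX k - prb a k) (bt pX pY) (upos p q M B)
    (fun k => vpos sg p q M B (bt pX pY k)) _ α μ T S
    (fun m z => T^[m.1.1 + p * (B + q)] (S^[m.2.1] z)) f g hT hS
    (fun m => (hT.iterate _).comp (hS.iterate _)) hfm hgm hf1 hg1 hext
    (fun z => by
      obtain ⟨F, G, hF, hG', hFG⟩ := h.ptw sg p q M B hp hq α T S hTS hD f g hf1 hg1 z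
      refine ⟨F, G, hF, hG', fun m n hn => ⟨(hFG m).1 n hn, (hFG m).2 _ (hbb n hn)⟩⟩)
  rw [hcard] at htr
  have hcm : (Fintype.card (Fin (M + B) × Fin q) : ℝ) = (M + B) * q := by
    rw [Fintype.card_prod, Fintype.card_fin, Fintype.card_fin]; push_cast; ring
  rw [hcm] at htr
  set Iz := ∫ z, (∑ n ∈ range M, (ind pX n - prb a n) *
    (f (T^[n] z) * g (S^[bt pX pY n] z))) ^ 2 ∂μ with hIz
  have hdz := (h.rat (sR C τ M) (sl a ε M) hl1 hl2).2
  have hst : 0 ≤ st C a ε τ M := by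
    unfold st sδ
    positivity
  have hq1 : (1 : ℝ) ≤ q := by exact_mod_cast hq
  have hMB : (0 : ℝ) < M + B := by
    have : (0 : ℝ) ≤ B := Nat.cast_nonneg _
    linarith
  have hCt : 0 ≤ ((sR C τ M).choose (sl a ε M) : ℝ) ^ 2 * st C a ε τ M := by positivity
  have h5 : (M + B) * q * Iz ≤ (M + B) * q * (((1 / 8) * (M : ℝ) ^ (1 - a)) ^ 2 * (M : ℝ) ^ (-ε)) := by
    calc (M + B) * q * Iz ≤ (M + B) * q * (sN a ε M * (1 + 2 * sW ε M))
          + 2 * (((sR C τ M).choose (sl a ε M) : ℝ) ^ 2 * st C a ε τ M) := htr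
      _ ≤ q * ((M + B) * (sN a ε M * (1 + 2 * sW ε M))
          + 2 * (((sR C τ M).choose (sl a ε M) : ℝ) ^ 2 * st C a ε τ M)) := by
          nlinarith
      _ ≤ q * ((M + B) * (((1 / 8) * (M : ℝ) ^ (1 - a)) ^ 2 * (M : ℝ) ^ (-ε))) :=
          mul_le_mul_of_nonneg_left hf (by linarith)
      _ = _ := by ring
  have h6 : Iz ≤ ((1 / 8) * (M : ℝ) ^ (1 - a)) ^ 2 * (M : ℝ) ^ (-ε) :=
    le_of_mul_le_mul_left h5 (by positivity)
  refine h6.trans ?_
  have h7 : (0:ℝ) ≤ (M : ℝ) ^ (1 - a) := by positivity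
  gcongr

/-- The spectral bound holds almost surely. -/
lemma spec_ae (h : Goals) {a b ε τ : ℝ} (e : Ex a b ε τ) (sg : Bool) (p q : ℕ) (hp : 0 < p)
    (hq : 0 < q) {Ω : Type} [MeasurableSpace Ω] {P : Measure Ω} [IsProbabilityMeasure P]
    (ξ η : ℕ → Ω → ℕ) (hξ : ∀ n, Measurable (ξ n)) (hη : ∀ n, Measurable (η n))
    (hind : iIndepFun (fun i : ℕ ⊕ ℕ => Sum.elim ξ η i) P)
    (hpr : ∀ n : ℕ, P {ω | ξ n ω = 1} = ENNReal.ofReal (((n : ℝ) + 1) ^ (-a))) :
    ∀ᵐ ω ∂P, Spec sg p q a ε τ (pr ξ ω) (pr η ω) := by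
  set C := (4 * p * q + 4) * q with hC
  have hC2 : 2 ≤ C := by
    have : 4 * 1 ≤ (4 * p * q + 4) * q := Nat.mul_le_mul (by omega) hq
    omega
  have hPB := predBern_of ξ η hξ hη hind a e.a0.le hpr
  have key := h.bck Ω P (fun n ω => ind (pr ξ ω) n) (prb a) (pastF ξ η) hPB
    (fun M => Ix (Fin ((4 * p * q + 4) * (M + pB τ M)) × Fin q) (sl a ε M))
    (fun M n ω I J => kA (fun k => ind (pr ξ ω) k - prb a k) (upos p q M (pB τ M))
        (fun k => vpos sg p q M (pB τ M) (bt (pr ξ ω) (pr η ω) k)) (sΔ C a ε τ M) n I J)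
    (fun M => sδ C a ε τ M) (fun M => sθ C a ε τ M) (fun M => st C a ε τ M)
    (fun M n I J => h.mea Ω ξ η hξ hη _ _ _ (prb a) (upos p q M (pB τ M))
      (vpos sg p q M (pB τ M)) _ n I J)
    (by
      filter_upwards [h.len C a b ε τ e hC2, h.smn C a b ε τ e hC2, eventually_ge_atTop 1]
        with M hlen hsm hM1
      obtain ⟨hl1, hl2, hΔ, hW1, hgW⟩ := hlen
      obtain ⟨s1, s2, s3⟩ := hsm
      have hcard : Fintype.card (Fin ((4 * p * q + 4) * (M + pB τ M)) × Fin q) = sR C τ M :=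
        card_pos p q M (pB τ M)
      have hdz := (h.rat (sR C τ M) (sl a ε M) hl1 hl2).2
      refine ⟨fun n ω I => ?_, fun n ω J => ?_, s1, s2, ?_⟩
      · have := h.row _ _ (sl a ε M) (fun k => ind (pr ξ ω) k - prb a k) (upos p q M (pB τ M))
          (fun k => vpos sg p q M (pB τ M) (bt (pr ξ ω) (pr η ω) k)) (sΔ C a ε τ M) hΔ.le
          (by rw [hcard]; exact hdz) n I
        rw [hcard] at this
        exact this
      · have := h.col _ _ (sl a ε M) (fun k => ind (pr ξ ω) k - prb a k) (upos p q M (pB τ M))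
          (fun k => vpos sg p q M (pB τ M) (bt (pr ξ ω) (pr η ω) k)) (sΔ C a ε τ M) hΔ.le
          (by rw [hcard]; exact hdz) n J
        rw [hcard] at this
        exact this
      · have h1 := (h.crd (Fin ((4 * p * q + 4) * (M + pB τ M)) × Fin q) (sl a ε M)
          (by rw [hcard]; omega)).2
        rw [hcard] at h1
        exact (mul_le_mul_of_nonneg_right h1 (Real.exp_pos _).le).trans s3)
  filter_upwards [key] with ω hω
  exact hω

lemma dep_swap {α : Type} (sg : Bool) (p q : ℕ) (T S : α → α) (hTS : ∀ z, T (S z) = S (T z))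
    (h : Dep sg p q T S) : Dep sg q p S T := by
  have hc : Function.Commute T S := hTS
  intro z
  have hz := h z
  cases sg
  · simp only [Bool.false_eq_true, if_false] at hz ⊢
    have h1 : T^[p] (S^[q] z) = S^[q] (T^[p] z) := (hc.iterate_iterate p q) z
    rw [← h1]
    exact hz
  · simp only [if_true] at hz ⊢
    exact hz.symm

/-- The goals imply the error estimates for almost all samples and all dependent maps. -/
theorem err_all (h : Goals) {a b : ℝ} (ha0 : 0 < a) (ha1 : a < 2 / 3) (hb0 : 0 < b)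
    (hb1 : b < 2 / 3) {Ω : Type} [MeasurableSpace Ω] {P : Measure Ω} [IsProbabilityMeasure P]
    (ξ η : ℕ → Ω → ℕ) (hξ : ∀ n, Measurable (ξ n)) (hη : ∀ n, Measurable (η n))
    (hind : iIndepFun (fun i : ℕ ⊕ ℕ => Sum.elim ξ η i) P)
    (hpr : ∀ n : ℕ, P {ω | ξ n ω = 1} = ENNReal.ofReal (((n : ℝ) + 1) ^ (-a)))
    (hqr : ∀ n : ℕ, P {ω | η n ω = 1} = ENNReal.ofReal (((n : ℝ) + 1) ^ (-b))) :
    ∀ᵐ ω ∂P, ∀ (sg : Bool) (p q : ℕ), 0 < p → 0 < q → ∀ (α : Type) [MeasurableSpace α]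
      (μ : Measure α) [IsProbabilityMeasure μ] (T S : α → α), MeasurePreserving T μ μ →
      MeasurePreserving S μ μ → (∀ z, T (S z) = S (T z)) → Dep sg p q T S →
      GoodL μ T S a b (pr ξ ω) (pr η ω) := by
  obtain ⟨ε, τ, e⟩ := h.exn a b ha0 ha1 hb0 hb1
  obtain ⟨ε', τ', e'⟩ := h.exn b a hb0 hb1 ha0 ha1
  have hind' : iIndepFun (fun i : ℕ ⊕ ℕ => Sum.elim η ξ i) P := by
    have := hind.precomp (g := Sum.swap) (Equiv.sumComm ℕ ℕ).injective
    convert this using 2 with i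
    rcases i with i | i <;> rfl
  have g1 := good_fact (predBern_of ξ η hξ hη hind a ha0.le hpr) (prb_anti a ha0.le)
  have g2 := good_fact (predBern_of η ξ hη hξ hind' b hb0.le hqr) (prb_anti b hb0.le)
  have k1 : ∀ᵐ ω ∂P, ∀ (s : Bool × ℕ × ℕ), 0 < s.2.1 → 0 < s.2.2 →
      Spec s.1 s.2.1 s.2.2 a ε τ (pr ξ ω) (pr η ω) := by
    rw [ae_all_iff]
    intro s
    by_cases hs : 0 < s.2.1 ∧ 0 < s.2.2
    · filter_upwards [spec_ae h e s.1 s.2.1 s.2.2 hs.1 hs.2 ξ η hξ hη hind hpr] with ω hω _ _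
      exact hω
    · exact Eventually.of_forall fun ω h1 h2 => absurd ⟨h1, h2⟩ hs
  have k2 : ∀ᵐ ω ∂P, ∀ (s : Bool × ℕ × ℕ), 0 < s.2.1 → 0 < s.2.2 →
      Spec s.1 s.2.1 s.2.2 b ε' τ' (pr η ω) (pr ξ ω) := by
    rw [ae_all_iff]
    intro s
    by_cases hs : 0 < s.2.1 ∧ 0 < s.2.2
    · filter_upwards [spec_ae h e' s.1 s.2.1 s.2.2 hs.1 hs.2 η ξ hη hξ hind' hqr] with ω hω _ _
      exact hω
    · exact Eventually.of_forall fun ω h1 h2 => absurd ⟨h1, h2⟩ hs
  filter_upwards [g1, g2, k1, k2] with ω h1 h2 h3 h4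
  have i1 := infinite_of_good a ha0.le (by linarith) h1
  have i2 := infinite_of_good b hb0.le (by linarith) h2
  intro sg p q hp hq α _ μ _ T S hT hS hTS hD
  exact ⟨i1, i2,
    ⟨ε, e.ε0, err_of_spec h e sg p q hp hq _ _ i2 h1 h2 (h3 (sg, p, q) hp hq) μ T S hT hS hTS hD⟩,
    ⟨ε', e'.ε0, err_of_spec h e' sg q p hq hp _ _ i1 h2 h1 (h4 (sg, q, p) hq hp) μ S T hS hT
      (fun z => (hTS z).symm) (dep_swap sg p q T S hTS hD)⟩⟩

end Pool.Agent.Helper24.KK
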