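import Mathlib

/-!
# Project KK (MP_9a4587_an), definitions

Kikuchi matrices for double averages along random sequences.

`Mm` is a finite set of starting points, `Φ` a finite set of positions. At time `n` the starting
point `m` is moved to the position `u n m` (first function) and to the position `v n m` (second
function). `x n` are real weights.
-/

set_option autoImplicit false

namespace Pool.Agent.Helper24.KK

open Finset

/-- The `l`-element subsets of `Φ`. -/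
abbrev Sl (Φ : Type) (l : ℕ) : Type := {S : Finset Φ // S.card = l}

/-- The index set of the Kikuchi matrices: pairs of `l`-element subsets. -/
abbrev Ix (Φ : Type) (l : ℕ) : Type := Sl Φ l × Sl Φ l

/-- `T` is obtained from `S` by replacing the element `s` by `t`. -/
def Mv {Φ : Type} [DecidableEq Φ] (s t : Φ) (S T : Finset Φ) : Prop :=
  s ∈ S ∧ t ∉ S ∧ T = insert t (S.erase s)

/-- The entries of the matrix of the constraint `(n, k, m)`. -/
def Ent {Φ Mm : Type} [DecidableEq Φ] {l : ℕ} (u v : ℕ → Mm → Φ) (n k : ℕ) (m : Mm)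
    (I J : Ix Φ l) : Prop :=
  Mv (u n m) (u k m) I.1.1 J.1.1 ∧ Mv (v k m) (v n m) I.2.1 J.2.1

/-- Bound for the row degree at time `n`. -/
noncomputable def rdeg {Φ Mm : Type} [DecidableEq Φ] [Fintype Mm] {l : ℕ} (x : ℕ → ℝ)
    (u v : ℕ → Mm → Φ) (n : ℕ) (I : Ix Φ l) : ℝ :=
  ∑ k ∈ range n, |x k| *
    ((univ.filter fun m : Mm => u n m ∈ I.1.1 ∧ v k m ∈ I.2.1).card : ℝ)

/-- Bound for the column degree at time `n`. -/
noncomputable def cdeg {Φ Mm : Type} [DecidableEq Φ] [Fintype Mm] {l : ℕ} (x : ℕ → ℝ)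
    (u v : ℕ → Mm → Φ) (n : ℕ) (J : Ix Φ l) : ℝ :=
  ∑ k ∈ range n, |x k| *
    ((univ.filter fun m : Mm => u k m ∈ J.1.1 ∧ v n m ∈ J.2.1).card : ℝ)

/-- The entries which are kept: the row and the column have small degree. -/
def Kept {Φ Mm : Type} [DecidableEq Φ] [Fintype Mm] {l : ℕ} (x : ℕ → ℝ)
    (u v : ℕ → Mm → Φ) (Δ : ℝ) (n k : ℕ) (m : Mm) (I J : Ix Φ l) : Prop :=
  Ent u v n k m I J ∧ rdeg x u v n I ≤ Δ ∧ cdeg x u v n J ≤ Δ

open Classical in
/-- The number of kept entries. -/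
noncomputable def nk {Φ Mm : Type} [Fintype Φ] [DecidableEq Φ] [Fintype Mm] (l : ℕ) (x : ℕ → ℝ)
    (u v : ℕ → Mm → Φ) (Δ : ℝ) (n k : ℕ) (m : Mm) : ℕ :=
  (univ.filter fun p : Ix Φ l × Ix Φ l => Kept x u v Δ n k m p.1 p.2).card

/-- The number of entries of one constraint, for a set of `R` positions. -/
noncomputable def dz (R l : ℕ) : ℝ := ((R - 2).choose (l - 1) : ℝ) ^ 2

open Classical in
/-- The weight of a constraint. -/
noncomputable def wt {Φ Mm : Type} [Fintype Φ] [DecidableEq Φ] [Fintype Mm] (l : ℕ) (x : ℕ → ℝ)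
    (u v : ℕ → Mm → Φ) (Δ : ℝ) (n k : ℕ) (m : Mm) : ℝ :=
  if dz (Fintype.card Φ) l / 2 ≤ (nk l x u v Δ n k m : ℝ) then ((nk l x u v Δ n k m : ℝ))⁻¹ else 0

open Classical in
/-- The matrix of time `n`. -/
noncomputable def kA {Φ Mm : Type} [Fintype Φ] [DecidableEq Φ] [Fintype Mm] {l : ℕ} (x : ℕ → ℝ)
    (u v : ℕ → Mm → Φ) (Δ : ℝ) (n : ℕ) (I J : Ix Φ l) : ℝ :=
  ∑ k ∈ range n, x k * ∑ m : Mm, if Kept x u v Δ n k m I J then wt l x u v Δ n k m else 0

/-- The test vector. -/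
noncomputable def wv {Φ : Type} {l : ℕ} (F G : Φ → ℝ) (I : Ix Φ l) : ℝ :=
  (∏ s ∈ I.1.1, F s) * ∏ s ∈ I.2.1, G s

/-- The quadratic functional. -/
noncomputable def Qf {Φ Mm : Type} [Fintype Mm] (M : ℕ) (x : ℕ → ℝ) (u v : ℕ → Mm → Φ)
    (F G : Φ → ℝ) : ℝ :=
  ∑ m : Mm, (∑ n ∈ range M, x n * (F (u n m) * G (v n m))) ^ 2

/-- The coefficient of `x n` in the off-diagonal part. -/
noncomputable def mainS {Φ Mm : Type} [DecidableEq Φ] [Fintype Mm] (x : ℕ → ℝ) (u v : ℕ → Mm → Φ)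
    (F G : Φ → ℝ) (n : ℕ) : ℝ :=
  ∑ k ∈ range n, x k * ∑ m : Mm, if v k m = v n m then 0 else
    (F (u n m) * F (u k m)) * (G (v n m) * G (v k m))

/-- The hypotheses on positions and weights. -/
structure Good {Φ Mm : Type} [DecidableEq Φ] (x : ℕ → ℝ) (u v : ℕ → Mm → Φ) (M : ℕ) (W Xb : ℝ) :
    Prop where
  ui : ∀ n < M, Function.Injective (u n)
  vi : ∀ n < M, Function.Injective (v n)
  uu : ∀ n < M, ∀ k < M, ∀ m, u n m = u k m → n = k
  x1 : ∀ n < M, |x n| ≤ 1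
  W1 : 1 ≤ W
  sx : ∑ n ∈ range M, |x n| ≤ Xb
  gap : ∀ m s, ∑ k ∈ (range M).filter (fun k => v k m = s), |x k| ≤ W

/-- The bound for the average degree. -/
noncomputable def avd (R l : ℕ) (W Xb : ℝ) : ℝ :=
  W + (2 * ((l : ℝ) / R) + R * ((l : ℝ) / R) ^ 2) * Xb

/-! ## Positions for dependent maps -/

/-- Position of the first function: the point `T^(i + p (B + q)) S^j z` is moved by `T^n`. -/
def upos (p q M B : ℕ) (n : ℕ) (m : Fin (M + B) × Fin q) :
    Fin ((4 * p * q + 4) * (M + B)) × Fin q :=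
  (⟨(m.1.1 + p * (B + q) + n) % ((4 * p * q + 4) * (M + B)),
    Nat.mod_lt _ (Nat.mul_pos (by omega) (lt_of_le_of_lt (Nat.zero_le _) m.1.2))⟩, m.2)

/-- Position of the second function: the point `T^(i + p (B + q)) S^j z` is moved by `S^b`, where
`S^q = T^p` (`sg = true`) or `S^q = T^(-p)` (`sg = false`). -/
def vpos (sg : Bool) (p q M B : ℕ) (b : ℕ) (m : Fin (M + B) × Fin q) :
    Fin ((4 * p * q + 4) * (M + B)) × Fin q :=
  (⟨(if sg then m.1.1 + p * (B + q) + p * ((m.2.1 + b) / q)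
      else m.1.1 + p * (B + q) - p * ((m.2.1 + b) / q)) % ((4 * p * q + 4) * (M + B)),
    Nat.mod_lt _ (Nat.mul_pos (by omega) (lt_of_le_of_lt (Nat.zero_le _) m.1.2))⟩,
   ⟨(m.2.1 + b) % q, Nat.mod_lt _ (lt_of_le_of_lt (Nat.zero_le _) m.2.2)⟩)

/-- `T^p = S^q` or `T^p S^q = 1`. -/
def Dep {α : Type} (sg : Bool) (p q : ℕ) (T S : α → α) : Prop :=
  ∀ z, if sg then T^[p] z = S^[q] z else T^[p] (S^[q] z) = z

/-- The symmetrized complex matrix of a real matrix. -/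
noncomputable def cm {d : Type} (A : d → d → ℝ) : Matrix d d ℂ :=
  Matrix.of fun i j => (((A i j + A j i) / 2 : ℝ) : ℂ)

end Pool.Agent.Helper24.KK
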