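import Pool.Agent.Helper24.KK.Assemble

/-!
# Project KK: the ergodic theorem for dependent maps and all exponents below 2/3
-/

set_option autoImplicit false
open MeasureTheory ProbabilityTheory Filter Topology

namespace Pool.Agent.Helper24.KK

open Pool.Agent.Helper49.RS hiding err_ae lln_sub single_ae prod_zero prod_main main_one main_top

theorem main_kk (h : Goals) (a b : ℝ) (ha0 : 0 < a) (ha1 : a < 2 / 3) (hb0 : 0 < b)
    (hb1 : b < 2 / 3)
    (Ω : Type) [MeasurableSpace Ω] (P : Measure Ω) [IsProbabilityMeasure P]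
    (ξ η : ℕ → Ω → ℕ) (hξ : ∀ n, Measurable (ξ n)) (hη : ∀ n, Measurable (η n))
    (hind : iIndepFun (fun i : ℕ ⊕ ℕ => Sum.elim ξ η i) P)
    (hp : ∀ n : ℕ, P {ω | ξ n ω = 1} = ENNReal.ofReal (((n : ℝ) + 1) ^ (-a)))
    (hq : ∀ n : ℕ, P {ω | η n ω = 1} = ENNReal.ofReal (((n : ℝ) + 1) ^ (-b))) :
    ∀ᵐ ω ∂P, ∀ (α : Type) [MeasurableSpace α] (μ : Measure α) [IsProbabilityMeasure μ]
      (T S : α → α), MeasurePreserving T μ μ → MeasurePreserving S μ μ →
      (∀ x, T (S x) = S (T x)) →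
      (∃ p q : ℕ, 0 < p ∧ 0 < q ∧
        ((∀ x, T^[p] x = S^[q] x) ∨ ∀ x, T^[p] (S^[q] x) = x)) →
      ∀ f g : α → ℝ, MemLp f ⊤ μ → MemLp g ⊤ μ →
      (∀ᵐ x ∂μ, Tendsto (fun N : ℕ => (N : ℝ)⁻¹ * ∑ k ∈ Finset.range N,
          f (T^[Nat.nth (fun n => ξ n ω = 1) k + 1] x) *
            g (S^[Nat.nth (fun n => η n ω = 1) k + 1] x)) atTop
        (𝓝 ((μ[f | MeasurableSpace.invariants T] x) *
          (μ[g | MeasurableSpace.invariants S] x)))) ∧
      Tendsto (fun N : ℕ => eLpNorm (fun x => (N : ℝ)⁻¹ * ∑ k ∈ Finset.range N,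
          f (T^[Nat.nth (fun n => ξ n ω = 1) k + 1] x) *
            g (S^[Nat.nth (fun n => η n ω = 1) k + 1] x)
          - (μ[f | MeasurableSpace.invariants T] x) *
            (μ[g | MeasurableSpace.invariants S] x)) 2 μ) atTop (𝓝 0) := by
  filter_upwards [err_all h ha0 ha1 hb0 hb1 ξ η hξ hη hind hp hq] with ω hω
  intro α _ μ _ T S hT hS hTS hdep f g hf hg
  obtain ⟨p, q, hp0, hq0, hpq⟩ := hdep
  obtain ⟨sg, hD⟩ : ∃ sg : Bool, Dep sg p q T S := by
    rcases hpq with h1 | h1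
    · exact ⟨true, fun z => by simpa using h1 z⟩
    · exact ⟨false, fun z => by simpa using h1 z⟩
  exact main_topL ha0 (by linarith) hb0 (by linarith) (hω sg p q hp0 hq0 α μ T S hT hS hTS hD)
    hT hS hTS f g hf hg

end Pool.Agent.Helper24.KK
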