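import Pool.Agent.Helper24.KK.GoalsC
import Pool.Agent.Helper24.KK.GoalsA

set_option autoImplicit false
open MeasureTheory Filter Topology Finset
namespace Pool.Agent.Helper24.KK
open Pool.Agent.Helper49.RS

theorem smn' (hLEN : LEN) (hRAT : RAT) : SMN := by
  intro C a b ε τ e hC
  have ha1 := e.a1
  have hε := e.ε0
  have hc1 := e.c1
  have hc2 := e.c2
  have ha0 := e.a0
  have h1a : 0 < 1 - a := by linarith
  have hτ0 : 0 < τ := by
    by_contra hc
    have h1 : τ * (1 - b) ≤ 0 := mul_nonpos_of_nonpos_of_nonneg (not_lt.mp hc) (by linarith [e.b1])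
    have h2 := e.hτ
    linarith
  have hτ3 : τ ≤ 3 := by linarith
  filter_upwards [hLEN C a b ε τ e hC, ev_log 1 ε (by norm_num) hε,
    ev_pow 32 (1 - a - 11 * ε) (1 - a + ε) (by linarith),
    ev_log 8 (1 - a + ε) (by norm_num) (by linarith),
    ev_pow (1 / (1 - a)) (1 - a) (1 - a + ε) (by linarith),
    eventually_ge_atTop (3 * C + 1)] with M hlen g1 g2 g3 g4 hM
  obtain ⟨hl1, hl2, hΔ, hW1, -⟩ := hlen
  have hMn : 1 ≤ M := by omega
  have hM1 : (1 : ℝ) ≤ M := by exact_mod_cast hMn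
  have hM0 : (0 : ℝ) < M := by linarith
  have hlog : 0 ≤ Real.log M := Real.log_nonneg hM1
  have hMC : (3 * C : ℝ) ≤ M := by
    have : ((3 * C : ℕ) : ℝ) ≤ M := by exact_mod_cast (by omega : 3 * C ≤ M)
    push_cast at this; exact this
  have hC0 : (0 : ℝ) < C := by
    have : (2 : ℝ) ≤ C := by exact_mod_cast hC
    linarith
  obtain ⟨-, hdz⟩ := hRAT (sR C τ M) (sl a ε M) hl1 hl2
  set l := sl a ε M with hl
  set R := sR C τ M with hR
  set N := sN a ε M with hN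
  set ρ := sρ C a ε τ M with hρ
  set δ := sδ C a ε τ M with hδd
  have hδ : 0 < δ := by
    rw [hδd]; unfold sδ; positivity
  have hN0 : 0 < N := by rw [hN]; unfold sN; positivity
  have hmono : ∀ x y : ℝ, x ≤ y → (M : ℝ) ^ x ≤ (M : ℝ) ^ y := fun x y h =>
    Real.rpow_le_rpow_of_exponent_le hM1 h
  -- log R
  have hB : (pB τ M : ℝ) ≤ 2 * (M : ℝ) ^ τ := by
    unfold pB
    exact ceil_le_two _ (Real.one_le_rpow hM1 hτ0.le)
  have hR0 : (1 : ℝ) ≤ R := by
    have : 1 ≤ R := by omega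
    exact_mod_cast this
  have hRle : (R : ℝ) ≤ (M : ℝ) ^ (4 : ℝ) := by
    have h1 : (R : ℝ) = C * (M + pB τ M) := by rw [hR]; unfold sR; push_cast; ring
    have h2 : (M : ℝ) ≤ (M : ℝ) ^ (3 : ℝ) := by
      calc (M : ℝ) = (M : ℝ) ^ (1 : ℝ) := (Real.rpow_one _).symm
        _ ≤ _ := hmono _ _ (by norm_num)
    have h3 := hmono τ 3 hτ3
    have h4 : (M : ℝ) ^ (4 : ℝ) = M * (M : ℝ) ^ (3 : ℝ) := by
      rw [show (4 : ℝ) = 1 + 3 by norm_num, Real.rpow_add hM0, Real.rpow_one]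
    rw [h1, h4]
    calc (C : ℝ) * (M + pB τ M) ≤ C * (3 * (M : ℝ) ^ (3 : ℝ)) := by
          apply mul_le_mul_of_nonneg_left _ hC0.le
          linarith
      _ = (3 * C) * (M : ℝ) ^ (3 : ℝ) := by ring
      _ ≤ _ := by
          apply mul_le_mul_of_nonneg_right hMC
          positivity
  have hlogR : Real.log R ≤ 4 * Real.log M := by
    calc Real.log R ≤ Real.log ((M : ℝ) ^ (4 : ℝ)) := Real.log_le_log (by linarith) hRle
      _ = 4 * Real.log M := Real.log_rpow hM0 _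
  have hlogR0 : 0 ≤ Real.log R := Real.log_nonneg hR0
  have hl' : (l : ℝ) ≤ 2 * (M : ℝ) ^ (1 - a - 12 * ε) := by
    rw [hl]; unfold sl
    exact ceil_le_two _ (Real.one_le_rpow hM1 (by linarith))
  have hρe : ρ = 2 * l * Real.log R + 4 * Real.log M := by rw [hρ]; unfold sρ; rfl
  have hρ0 : 0 ≤ ρ := by rw [hρe]; positivity
  have hρN : ρ ≤ N := by
    have h1 : 2 * (l : ℝ) * Real.log R ≤ 16 * (M : ℝ) ^ (1 - a - 11 * ε) := by
      calc 2 * (l : ℝ) * Real.log R ≤ 2 * (2 * (M : ℝ) ^ (1 - a - 12 * ε)) * (4 * Real.log M) := by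
            gcongr
        _ = 16 * ((M : ℝ) ^ (1 - a - 12 * ε) * Real.log M) := by ring
        _ ≤ 16 * ((M : ℝ) ^ (1 - a - 12 * ε) * (M : ℝ) ^ ε) := by
            have : Real.log M ≤ (M : ℝ) ^ ε := by linarith
            gcongr
        _ = 16 * (M : ℝ) ^ (1 - a - 11 * ε) := by
            rw [← Real.rpow_add hM0]; congr 2; ring
    have hNe : N = (M : ℝ) ^ (1 - a + ε) := by rw [hN]; rfl
    rw [hρe, hNe]
    linarith
  have hNs : ∑ p ∈ range M, prb a p ≤ N := by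
    have hs : ∑ n ∈ range M, prb a n ≤ (M : ℝ) ^ (1 - a) / (1 - a) :=
      sum_rpow_le a ha0.le ha1 M
    have hNe : N = (M : ℝ) ^ (1 - a + ε) := by rw [hN]; rfl
    have e1 : 1 / (1 - a) * (M : ℝ) ^ (1 - a) = (M : ℝ) ^ (1 - a) / (1 - a) := by ring
    rw [hNe]
    linarith
  have hθ : sθ C a ε τ M = Real.sqrt (ρ / N) / δ := rfl
  have ht : st C a ε τ M = 2 * δ * Real.sqrt (ρ * N) := rfl
  have hθδ : sθ C a ε τ M * δ = Real.sqrt (ρ / N) := by
    rw [hθ]; field_simp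
  refine ⟨by rw [hθ]; positivity, ?_, ?_⟩
  · rw [hθδ]
    refine Real.sqrt_le_one.mpr ?_
    rw [div_le_one hN0]
    exact hρN
  · have h1 : sθ C a ε τ M * st C a ε τ M = 2 * ρ := by
      rw [ht, show sθ C a ε τ M * (2 * δ * Real.sqrt (ρ * N))
        = 2 * ((sθ C a ε τ M * δ) * Real.sqrt (ρ * N)) by ring, hθδ, ← Real.sqrt_mul (by positivity)]
      rw [show ρ / N * (ρ * N) = ρ * ρ by field_simp, Real.sqrt_mul_self hρ0]
    have h2 : sθ C a ε τ M ^ 2 * δ ^ 2 = ρ / N := by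
      rw [← mul_pow, hθδ, Real.sq_sqrt (by positivity)]
    rw [h1, h2, ← Real.exp_add]
    have h3 : ρ / N * ∑ p ∈ range M, prb a p ≤ ρ := by
      calc ρ / N * ∑ p ∈ range M, prb a p ≤ ρ / N * N := by
            apply mul_le_mul_of_nonneg_left hNs; positivity
        _ = ρ := by field_simp
    calc Real.exp (2 * l * Real.log R + (-(2 * ρ) + ρ / N * ∑ p ∈ range M, prb a p))
        ≤ Real.exp (-(4 * Real.log M)) := by
          apply Real.exp_le_exp.mpr
          rw [hρe] at h3 ⊢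
          linarith
      _ = ((M : ℝ) ^ 4)⁻¹ := exp_neg_four_log M hMn
      _ ≤ ((M : ℝ) ^ 2)⁻¹ := by
          have : ((M:ℝ) ^ 2) ≤ (M:ℝ) ^ 4 := pow_le_pow_right₀ hM1 (by norm_num)
          gcongr

end Pool.Agent.Helper24.KK
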